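import Pool.Agent.D0H55.LN.Nz
import Pool.Agent.TH377.Dyn.Lehmer

/-!
# Escape of the orbits of polynomial maps with a non integral factor
-/

set_option autoImplicit false

namespace Pool.Agent.D0H55.LN

open Finset
open Pool.Agent.TH377.Dyn (gexp)

universe u v

variable {N d : ℕ}

section valuation

variable {L : Type u} {Γ : Type v} [Field L] [LinearOrderedCommGroupWithZero Γ]
  (V : Valuation L Γ)

/-- congruent arguments give congruent values -/
lemma hev_congr (c : Mon N d → L) (hc : ∀ b, V (c b) ≤ 1) (t t' : L) (z z' : Fin N → L)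
    (ht : V t ≤ 1) (ht' : V t' ≤ 1) (hz : ∀ j, V (z j) ≤ 1) (hz' : ∀ j, V (z' j) ≤ 1)
    (h1 : V (t' - t) < 1) (h2 : ∀ j, V (z' j - z j) < 1) :
    V (hev c t' z' - hev c t z) < 1 := by
  let A := V.integer
  let I : Ideal A :=
    { carrier := {a | V (a : L) < 1}
      zero_mem' := by
        change V ((0 : A) : L) < 1
        rw [ZeroMemClass.coe_zero, map_zero]
        exact zero_lt_one
      add_mem' := by
        intro a b ha hb
        exact (V.map_add _ _).trans_lt (max_lt ha hb)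
      smul_mem' := by
        intro a b hb
        change V ((a : L) * (b : L)) < 1
        rw [map_mul]
        exact lt_of_le_of_lt (mul_le_mul_left a.2 _ |>.trans (by rw [one_mul])) hb }
  set cA : Mon N d → A := fun b => ⟨c b, hc b⟩ with hcA
  set tA : A := ⟨t, ht⟩
  set tA' : A := ⟨t', ht'⟩
  set zA : Fin N → A := fun j => ⟨z j, hz j⟩
  set zA' : Fin N → A := fun j => ⟨z' j, hz' j⟩
  have e1 : ((hev cA tA zA : A) : L) = hev c t z := map_hev A.subtype cA tA zA
  have e2 : ((hev cA tA' zA' : A) : L) = hev c t' z' := map_hev A.subtype cA tA' zA'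
  have e3 : Ideal.Quotient.mk I (hev cA tA' zA') = Ideal.Quotient.mk I (hev cA tA zA) := by
    rw [map_hev, map_hev]
    have g1 : Ideal.Quotient.mk I tA' = Ideal.Quotient.mk I tA := Ideal.Quotient.eq.2 h1
    have g2 : (fun j => Ideal.Quotient.mk I (zA' j)) = fun j => Ideal.Quotient.mk I (zA j) := by
      funext j
      exact Ideal.Quotient.eq.2 (h2 j)
    rw [g1, g2]
  have e4 : hev cA tA' zA' - hev cA tA zA ∈ I := Ideal.Quotient.eq.1 e3
  have e5 : V (((hev cA tA' zA' - hev cA tA zA : A)) : L) < 1 := e4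
  have e6 : (((hev cA tA' zA' - hev cA tA zA : A)) : L) = hev c t' z' - hev c t z := by
    rw [← e1, ← e2]
    rfl
  rwa [e6] at e5

/-- no zero modulo the place -/
def NoZero (c : Fin N → Mon N d → L) : Prop :=
  ∀ (t : L) (z : Fin N → L), V t ≤ 1 → (∀ j, V (z j) ≤ 1) → (V t = 1 ∨ ∃ j, V (z j) = 1) →
    ∃ i, 1 ≤ V (hev (c i) t z)

lemma step (c : Fin N → Mon N d → L) (hc : NoZero V c) (x : Fin N → L) :
    ∃ i, 1 ≤ V (hev (c i) 1 x) ∧ ∀ j, V (x j) ^ d ≤ V (hev (c i) 1 x) := by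
  classical
  have hs : ∃ s : L, 1 ≤ V s ∧ (∀ j, V (x j) ≤ V s) ∧ (s = 1 ∨ ∃ j, s = x j) := by
    by_cases h : ∀ j, V (x j) ≤ 1
    · exact ⟨1, by rw [map_one], fun j => by rw [map_one]; exact h j, Or.inl rfl⟩
    · push Not at h
      obtain ⟨j1, hj1⟩ := h
      obtain ⟨j0, -, hj0⟩ := exists_max_image univ (fun j => V (x j)) ⟨j1, mem_univ j1⟩
      exact ⟨x j0, hj1.le.trans (hj0 j1 (mem_univ _)), fun j => hj0 j (mem_univ _), Or.inr ⟨j0, rfl⟩⟩
  obtain ⟨s, hs1, hs2, hs3⟩ := hs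
  have hVs : V s ≠ 0 := (zero_lt_one.trans_le hs1).ne'
  have hs0 : s ≠ 0 := (Valuation.ne_zero_iff V).1 hVs
  obtain ⟨i, hi⟩ := hc s⁻¹ (fun j => s⁻¹ * x j) (by
    rw [map_inv₀]
    exact inv_le_one_of_one_le₀ hs1) (by
    intro j
    rw [map_mul, map_inv₀]
    calc (V s)⁻¹ * V (x j) ≤ (V s)⁻¹ * V s := mul_le_mul_right (hs2 j) _
      _ = 1 := inv_mul_cancel₀ hVs) (by
    rcases hs3 with h | ⟨j, h⟩
    · left
      rw [h, inv_one, map_one]
    · right
      exact ⟨j, by rw [← h, inv_mul_cancel₀ hs0, map_one]⟩)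
  have h1 := hev_smul (c i) s s⁻¹ (fun j => s⁻¹ * x j)
  have h2 : (fun j => s * (s⁻¹ * x j)) = x := by
    funext j
    rw [← mul_assoc, mul_inv_cancel₀ hs0, one_mul]
  rw [h2, mul_inv_cancel₀ hs0] at h1
  have h3 : V s ^ d ≤ V (hev (c i) 1 x) := by
    rw [h1, map_mul, map_pow]
    exact le_mul_of_one_le_right' hi
  refine ⟨i, (one_le_pow₀ hs1).trans h3, fun j => ?_⟩
  exact (pow_le_pow_left₀ zero_le (hs2 j) _).trans h3

/-- **Escape.** -/
theorem escape (c : Fin N → Mon N d → L) (hc : NoZero V c) (b : L)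
    (x : Fin N → L) (n : ℕ) : ∃ i, (V b)⁻¹ ^ gexp d (n + 1) ≤
      V ((fun (y : Fin N → L) (i : Fin N) => b⁻¹ * hev (c i) 1 y)^[n + 1] x i) := by
  induction n with
  | zero =>
    obtain ⟨i, h1, -⟩ := step V c hc x
    refine ⟨i, ?_⟩
    change (V b)⁻¹ ^ (d * 0 + 1) ≤ V (b⁻¹ * hev (c i) 1 x)
    rw [mul_zero, zero_add, pow_one, map_mul, map_inv₀]
    exact le_mul_of_one_le_right' h1
  | succ n ih =>
    obtain ⟨j, hj⟩ := ih
    rw [Function.iterate_succ_apply']
    set y := (fun (y : Fin N → L) (i : Fin N) => b⁻¹ * hev (c i) 1 y)^[n + 1] x with hy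
    obtain ⟨i, -, h2⟩ := step V c hc y
    refine ⟨i, ?_⟩
    change (V b)⁻¹ ^ (d * gexp d (n + 1) + 1) ≤ V (b⁻¹ * hev (c i) 1 y)
    rw [map_mul, map_inv₀, pow_succ', mul_comm d, pow_mul]
    exact mul_le_mul_right ((pow_le_pow_left₀ zero_le hj _).trans (h2 j)) _

end valuation

open NumberField IsDedekindDomain
open Pool.Agent.TH377.Dyn (ovr)

variable {K L : Type} [Field K] [NumberField K] [Field L] [NumberField L] [Algebra K L]

/-- good systems have no zeros at the places with suitable residue degree -/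
theorem noZero_of (v : HeightOneSpectrum (𝓞 K)) (q : v.asIdeal.primesOver (𝓞 L))
    (c : Fin N → Mon N d → 𝓞 K)
    (hc : GoodSys fun i b => Ideal.Quotient.mk v.asIdeal (c i b))
    (hf : ∀ l : ℕ, l.Prime → l ≤ Bd N d → ¬ l ∣ q.1.inertiaDeg (𝓞 K)) :
    NoZero ((ovr v q).valuation L) (fun i b => algebraMap (𝓞 K) L (c i b)) := by
  classical
  set w := ovr v q with hw
  have hlies : w.asIdeal.LiesOver v.asIdeal := Pool.Agent.TH377.Dyn.ovr_lies v q
  have hmax : v.asIdeal.IsMaximal := v.isMaximal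
  have hmaxw : w.asIdeal.IsMaximal := w.isMaximal
  let _ : Field (𝓞 K ⧸ v.asIdeal) := Ideal.Quotient.field _
  let _ : Field (𝓞 L ⧸ w.asIdeal) := Ideal.Quotient.field _
  have hfinK : Finite (𝓞 K ⧸ v.asIdeal) := Ideal.finiteQuotientOfFreeOfNeBot _ v.ne_bot
  have hfinL : Finite (𝓞 L ⧸ w.asIdeal) := Ideal.finiteQuotientOfFreeOfNeBot _ w.ne_bot
  have hfd : FiniteDimensional (𝓞 K ⧸ v.asIdeal) (𝓞 L ⧸ w.asIdeal) :=
    Module.Finite.of_finite
  intro t z ht hz hne
  by_contra hcon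
  push Not at hcon
  obtain ⟨t', ht'⟩ := w.exists_valuation_sub_lt_of_integer ht 1
  rw [Units.val_one] at ht'
  choose z' hz' using fun j => w.exists_valuation_sub_lt_of_integer (hz j) 1
  simp only [Units.val_one] at hz'
  set cL : Fin N → Mon N d → 𝓞 L := fun i b => algebraMap (𝓞 K) (𝓞 L) (c i b) with hcL
  have halg : ∀ i b, algebraMap (𝓞 K) L (c i b) = algebraMap (𝓞 L) L (cL i b) := fun i b =>
    IsScalarTower.algebraMap_apply (𝓞 K) (𝓞 L) L _
  -- the values at the integral points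
  have h1 : ∀ i, hev (cL i) t' z' ∈ w.asIdeal := by
    intro i
    rw [← w.valuation_lt_one_iff_mem (K := L)]
    have e1 : algebraMap (𝓞 L) L (hev (cL i) t' z') =
        hev (fun b => algebraMap (𝓞 K) L (c i b)) (algebraMap (𝓞 L) L t')
          (fun j => algebraMap (𝓞 L) L (z' j)) := by
      rw [map_hev]
      congr 1
    have e2 := hev_congr (w.valuation L) (fun b => algebraMap (𝓞 K) L (c i b))
      (fun b => by rw [halg]; exact w.valuation_le_one _) t (algebraMap (𝓞 L) L t') z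
      (fun j => algebraMap (𝓞 L) L (z' j)) ht (w.valuation_le_one _) hz
      (fun j => w.valuation_le_one _) ht' hz'
    change w.valuation L (algebraMap (𝓞 L) L (hev (cL i) t' z')) < 1
    rw [e1]
    have e3 := (w.valuation L).map_add (hev (fun b => algebraMap (𝓞 K) L (c i b))
      (algebraMap (𝓞 L) L t') (fun j => algebraMap (𝓞 L) L (z' j)) -
        hev (fun b => algebraMap (𝓞 K) L (c i b)) t z) (hev (fun b => algebraMap (𝓞 K) L (c i b)) t z)
    rw [sub_add_cancel] at e3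
    exact e3.trans_lt (max_lt e2 (hcon i))
  -- the point is not zero modulo `w`
  have hunit : ∀ (y : L) (y' : 𝓞 L), w.valuation L y = 1 →
      w.valuation L (algebraMap (𝓞 L) L y' - y) < 1 → Ideal.Quotient.mk w.asIdeal y' ≠ 0 := by
    intro y y' hy hyy h
    rw [Ideal.Quotient.eq_zero_iff_mem, ← w.valuation_lt_one_iff_mem (K := L)] at h
    have e3 := (w.valuation L).map_sub (algebraMap (𝓞 L) L y') (algebraMap (𝓞 L) L y' - y)
    rw [sub_sub_cancel, hy] at e3
    exact absurd (e3.trans_lt (max_lt h hyy)) (lt_irrefl _)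
  have h2 : Ideal.Quotient.mk w.asIdeal t' ≠ 0 ∨
      (fun j => Ideal.Quotient.mk w.asIdeal (z' j)) ≠ 0 := by
    rcases hne with h | ⟨j, h⟩
    · exact Or.inl (hunit t t' h ht')
    · exact Or.inr fun h0 => hunit (z j) (z' j) h (hz' j) (congrFun h0 j)
  have hfr : Module.finrank (𝓞 K ⧸ v.asIdeal) (𝓞 L ⧸ w.asIdeal) = q.1.inertiaDeg (𝓞 K) :=
    (Ideal.inertiaDeg_eq_of_isMaximal v.asIdeal w.asIdeal).symm
  obtain ⟨i, hi⟩ := no_zero (E := 𝓞 L ⧸ w.asIdeal)
    (fun i b => Ideal.Quotient.mk v.asIdeal (c i b)) hc (by rw [hfr]; exact hf)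
    (Ideal.Quotient.mk w.asIdeal t') (fun j => Ideal.Quotient.mk w.asIdeal (z' j)) h2
  apply hi
  have h3 : Ideal.Quotient.mk w.asIdeal (hev (cL i) t' z') = 0 :=
    Ideal.Quotient.eq_zero_iff_mem.2 (h1 i)
  rw [map_hev] at h3
  exact h3

end Pool.Agent.D0H55.LN
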