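import Pool.Agent.D0H55.LN.Esc

/-!
# Heights of points of affine space: lower bounds along orbits, existence of the canonical height
-/

set_option autoImplicit false

namespace Pool.Agent.D0H55.LN

open NumberField IsDedekindDomain Module Filter Topology Height
open Pool.Agent.TH377.Dyn (ovr val_le_exp sum_ef gexp pow_le_gexp)

variable {N d : ℕ}

section heights

variable {L : Type} [Field L] [NumberField L]

lemma one_le_prod_real {α : Type*} (s : Finset α) (f : α → ℝ) (h : ∀ i ∈ s, 1 ≤ f i) :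
    1 ≤ ∏ i ∈ s, f i :=
  Finset.prod_induction f (fun x => 1 ≤ x)
    (fun _ _ ha hb => one_le_mul_of_one_le_of_one_le ha hb) le_rfl h

/-- the finite places in a finite set contribute at most the height -/
lemma sum_le_logHeight (y : Fin (N + 1) → L) (hy : y 0 = 1) (s : Finset (FinitePlace L))
    (m : FinitePlace L → ℝ) (hm : ∀ w ∈ s, ∃ i, y i ≠ 0 ∧ m w ≤ Real.log (w (y i))) :
    ∑ w ∈ s, m w ≤ logHeight y := by
  classical
  have hy0 : y ≠ 0 := by
    intro h
    rw [h] at hy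
    exact zero_ne_one hy
  have hbd : ∀ (f : Fin (N + 1) → ℝ), BddAbove (Set.range f) := fun f => (Set.finite_range f).bddAbove
  have h1 : ∀ w : FinitePlace L, 1 ≤ ⨆ i, w (y i) := by
    intro w
    refine le_ciSup_of_le (hbd _) 0 ?_
    rw [hy, map_one]
  have h2 : ∀ v : InfinitePlace L, 1 ≤ ⨆ i, v (y i) := by
    intro v
    refine le_ciSup_of_le (hbd _) 0 ?_
    rw [hy, map_one]
  have hfin : (Function.mulSupport fun w : FinitePlace L => ⨆ i, w (y i)).Finite := by
    refine Set.Finite.subset (s := ⋃ i : {i : Fin (N + 1) // y i ≠ 0},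
      Function.mulSupport fun w : FinitePlace L => w (y i.1))
      (Set.finite_iUnion fun i => FinitePlace.hasFiniteMulSupport i.2) ?_
    intro w hw
    by_contra h
    apply hw
    simp only [Set.mem_iUnion, Function.mem_mulSupport, not_exists, not_not] at h
    change (⨆ i, w (y i)) = 1
    refine le_antisymm (ciSup_le fun i => ?_) (h1 w)
    by_cases hi : y i = 0
    · rw [hi, map_zero]
      exact zero_le_one
    · exact (h ⟨i, hi⟩).le
  have h3 : ∏ w ∈ s, ⨆ i, w (y i) ≤ ∏ᶠ w : FinitePlace L, ⨆ i, w (y i) := by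
    rw [finprod_eq_prod_of_mulSupport_subset (s := hfin.toFinset ∪ s) _ (by
      intro w hw
      rw [Finset.mem_coe, Finset.mem_union]
      exact Or.inl (hfin.mem_toFinset.2 hw))]
    have hsub : s ⊆ hfin.toFinset ∪ s := Finset.subset_union_right
    rw [← Finset.prod_sdiff hsub]
    exact le_mul_of_one_le_left (Finset.prod_nonneg fun w _ => zero_le_one.trans (h1 w))
      (one_le_prod_real _ _ fun w _ => h1 w)
  have h4 : 1 ≤ ∏ v : InfinitePlace L, (⨆ i, v (y i)) ^ v.mult := by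
    exact one_le_prod_real _ _ fun v _ => one_le_pow₀ (h2 v)
  have h5 : ∏ w ∈ s, ⨆ i, w (y i) ≤ mulHeight y := by
    rw [NumberField.mulHeight_eq hy0]
    have h6 : 0 ≤ ∏ᶠ w : FinitePlace L, ⨆ i, w (y i) :=
      finprod_nonneg fun w => zero_le_one.trans (h1 w)
    calc ∏ w ∈ s, ⨆ i, w (y i) ≤ ∏ᶠ w : FinitePlace L, ⨆ i, w (y i) := h3
      _ = 1 * ∏ᶠ w : FinitePlace L, ⨆ i, w (y i) := (one_mul _).symm
      _ ≤ _ := mul_le_mul_of_nonneg_right h4 h6
  have h6 : 0 < ∏ w ∈ s, ⨆ i, w (y i) :=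
    Finset.prod_pos fun w _ => zero_lt_one.trans_le (h1 w)
  rw [logHeight_eq_log_mulHeight]
  refine le_trans ?_ (Real.log_le_log h6 h5)
  rw [Real.log_prod fun w _ => (zero_lt_one.trans_le (h1 w)).ne']
  refine Finset.sum_le_sum fun w hw => ?_
  obtain ⟨i, hi0, hi⟩ := hm w hw
  refine hi.trans (Real.log_le_log ?_ (le_ciSup (hbd fun i => w (y i)) i))
  exact FinitePlace.pos_iff.2 hi0

/-- the contribution of a place -/
lemma le_log (w : HeightOneSpectrum (𝓞 L)) (y : L) (m : ℕ)
    (h : WithZero.exp (m : ℤ) ≤ w.valuation L y) :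
    m * Real.log (Ideal.absNorm w.asIdeal) ≤ Real.log (FinitePlace.mk w y) := by
  have hN : 1 < (Ideal.absNorm w.asIdeal : NNReal) := HeightOneSpectrum.one_lt_absNorm_nnreal w
  have hN0 : (Ideal.absNorm w.asIdeal : NNReal) ≠ 0 := HeightOneSpectrum.absNorm_ne_zero w
  have h1 : (Ideal.absNorm w.asIdeal : ℝ) ^ m ≤ FinitePlace.mk w y := by
    rw [FinitePlace.mk_apply, FinitePlace.norm_embedding, HeightOneSpectrum.adicAbv_def]
    have h2 := (WithZeroMulInt.toNNReal_strictMono hN).monotone h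
    have h3 : WithZeroMulInt.toNNReal hN0 (WithZero.exp (m : ℤ)) =
        (Ideal.absNorm w.asIdeal : NNReal) ^ m := by
      rw [WithZeroMulInt.toNNReal_neg_apply _ WithZero.exp_ne_zero]
      exact zpow_natCast _ _
    rw [h3] at h2
    exact_mod_cast h2
  have h0 : (0 : ℝ) < (Ideal.absNorm w.asIdeal : ℝ) ^ m := by
    have : (0 : ℝ) < Ideal.absNorm w.asIdeal := by
      have := zero_lt_one.trans hN
      exact_mod_cast this
    positivity
  rw [← Real.log_pow]
  exact Real.log_le_log h0 h1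

end heights

variable {K L : Type} [Field K] [NumberField K] [Field L] [NumberField L] [Algebra K L]

/-- the polynomial map -/
noncomputable def pmap (L : Type) [Field L] [Algebra (𝓞 K) L] (b : 𝓞 K)
    (c : Fin N → Mon N d → 𝓞 K) (y : Fin N → L) : Fin N → L :=
  fun i => (algebraMap (𝓞 K) L b)⁻¹ * hev (fun a => algebraMap (𝓞 K) L (c i a)) 1 y

/-- **The lower bound for the height of the iterates.** -/
theorem height_iter (v : HeightOneSpectrum (𝓞 K)) (b : 𝓞 K) (hb : b ∈ v.asIdeal) (hb0 : b ≠ 0)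
    (c : Fin N → Mon N d → 𝓞 K)
    (hc : GoodSys fun i b => Ideal.Quotient.mk v.asIdeal (c i b))
    (hf : ∀ q : v.asIdeal.primesOver (𝓞 L), ∀ l : ℕ, l.Prime → l ≤ Bd N d →
      ¬ l ∣ q.1.inertiaDeg (𝓞 K)) (x : Fin N → L) (n : ℕ) :
    (finrank K L : ℝ) * ((d : ℝ) ^ n * Real.log (Ideal.absNorm v.asIdeal)) ≤
      logHeight (Fin.cons 1 ((pmap L b c)^[n + 1] x) : Fin (N + 1) → L) := by
  classical
  have hmax := v.isMaximal
  have hinj : Function.Injective (algebraMap (𝓞 K) L) :=
    FaithfulSMul.algebraMap_injective (𝓞 K) L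
  set xn := (pmap L b c)^[n + 1] x with hxn
  have hplace : ∀ q : v.asIdeal.primesOver (𝓞 L), ∃ i : Fin (N + 1),
      (Fin.cons 1 xn : Fin (N + 1) → L) i ≠ 0 ∧
      ((q.1.ramificationIdx (𝓞 K) * q.1.inertiaDeg (𝓞 K) : ℕ) : ℝ) *
      ((d : ℝ) ^ n * Real.log (Ideal.absNorm v.asIdeal)) ≤
      Real.log (FinitePlace.mk (ovr v q) ((Fin.cons 1 xn : Fin (N + 1) → L) i)) := by
    intro q
    have hVb : (ovr v q).valuation L (algebraMap (𝓞 K) L b) ≠ 0 := by
      rw [Valuation.ne_zero_iff, Ne, map_eq_zero_iff _ hinj]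
      exact hb0
    have h1 := noZero_of v q c hc (hf q)
    obtain ⟨i, h2⟩ := escape ((ovr v q).valuation L) _ h1 (algebraMap (𝓞 K) L b) x n
    have h4 : WithZero.exp (q.1.ramificationIdx (𝓞 K) : ℤ) ≤
        ((ovr v q).valuation L (algebraMap (𝓞 K) L b))⁻¹ := by
      rw [← inv_inv (WithZero.exp (q.1.ramificationIdx (𝓞 K) : ℤ)), ← WithZero.exp_neg]
      exact inv_anti₀ (zero_lt_iff.2 hVb) (val_le_exp v q b hb)
    have h3 : WithZero.exp ((q.1.ramificationIdx (𝓞 K) * d ^ n : ℕ) : ℤ) ≤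
        (ovr v q).valuation L (xn i) := by
      refine le_trans ?_ h2
      calc WithZero.exp ((q.1.ramificationIdx (𝓞 K) * d ^ n : ℕ) : ℤ) =
            WithZero.exp (q.1.ramificationIdx (𝓞 K) : ℤ) ^ (d ^ n) := by
            rw [← WithZero.exp_nsmul]
            congr 1
            push_cast
            rw [nsmul_eq_mul]
            push_cast
            ring
        _ ≤ ((ovr v q).valuation L (algebraMap (𝓞 K) L b))⁻¹ ^ (d ^ n) :=
            pow_le_pow_left₀ zero_le h4 _
        _ ≤ ((ovr v q).valuation L (algebraMap (𝓞 K) L b))⁻¹ ^ gexp d (n + 1) := by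
            refine pow_le_pow_right₀ ?_ (pow_le_gexp _ _)
            refine le_trans ?_ h4
            rw [← WithZero.exp_zero, WithZero.exp_le_exp]
            positivity
    have hne : xn i ≠ 0 := by
      intro h
      rw [h, map_zero] at h3
      exact absurd h3 (not_le.2 (zero_lt_iff.2 WithZero.exp_ne_zero))
    refine ⟨i.succ, ?_, ?_⟩
    · rw [Fin.cons_succ]
      exact hne
    · rw [Fin.cons_succ]
      have h5 := le_log (ovr v q) (xn i) _ h3
      refine le_trans (le_of_eq ?_) h5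
      have h6 : Ideal.absNorm (ovr v q).asIdeal =
          Ideal.absNorm v.asIdeal ^ q.1.inertiaDeg (𝓞 K) :=
        (Ideal.absNorm_pow_inertiaDeg v.asIdeal q.1).symm
      rw [h6]
      push_cast
      rw [Real.log_pow]
      ring
  have hinj2 : Function.Injective
      (fun q : v.asIdeal.primesOver (𝓞 L) => FinitePlace.mk (ovr v q)) := by
    intro q q' h
    have h1 := FinitePlace.mk_eq_iff.1 h
    exact Subtype.ext (congrArg HeightOneSpectrum.asIdeal h1)
  -- the contributions as a function of the place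
  set M : FinitePlace L → ℝ := fun w =>
    if h : ∃ q : v.asIdeal.primesOver (𝓞 L), FinitePlace.mk (ovr v q) = w then
      ((h.choose.1.ramificationIdx (𝓞 K) * h.choose.1.inertiaDeg (𝓞 K) : ℕ) : ℝ) *
      ((d : ℝ) ^ n * Real.log (Ideal.absNorm v.asIdeal)) else 0 with hM
  have hMq : ∀ q : v.asIdeal.primesOver (𝓞 L), M (FinitePlace.mk (ovr v q)) =
      ((q.1.ramificationIdx (𝓞 K) * q.1.inertiaDeg (𝓞 K) : ℕ) : ℝ) *
      ((d : ℝ) ^ n * Real.log (Ideal.absNorm v.asIdeal)) := by
    intro q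
    have h : ∃ q' : v.asIdeal.primesOver (𝓞 L), FinitePlace.mk (ovr v q') =
        FinitePlace.mk (ovr v q) := ⟨q, rfl⟩
    have h1 : h.choose = q := hinj2 h.choose_spec
    rw [hM]
    simp only [dif_pos h, h1]
  calc (finrank K L : ℝ) * ((d : ℝ) ^ n * Real.log (Ideal.absNorm v.asIdeal)) =
      ∑ q : v.asIdeal.primesOver (𝓞 L), ((q.1.ramificationIdx (𝓞 K) *
        q.1.inertiaDeg (𝓞 K) : ℕ) : ℝ) *
      ((d : ℝ) ^ n * Real.log (Ideal.absNorm v.asIdeal)) := by
        rw [← Finset.sum_mul, ← Nat.cast_sum, sum_ef L v]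
    _ = ∑ q : v.asIdeal.primesOver (𝓞 L), M (FinitePlace.mk (ovr v q)) :=
        Finset.sum_congr rfl fun q _ => (hMq q).symm
    _ = ∑ w ∈ Finset.univ.image (fun q : v.asIdeal.primesOver (𝓞 L) =>
        FinitePlace.mk (ovr v q)), M w := by
        rw [Finset.sum_image fun a _ b _ h => hinj2 h]
    _ ≤ _ := by
        refine sum_le_logHeight _ (by rw [Fin.cons_zero]) _ _ fun w hw => ?_
        obtain ⟨q, -, rfl⟩ := Finset.mem_image.1 hw
        obtain ⟨i, h1, h2⟩ := hplace q
        exact ⟨i, h1, by rw [hMq]; exact h2⟩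

/-- Galois extensions: the residue degrees divide the degree -/
theorem inertia_dvd [IsGalois K L] (v : HeightOneSpectrum (𝓞 K))
    (q : v.asIdeal.primesOver (𝓞 L)) (l : ℕ) (hl : l ∣ q.1.inertiaDeg (𝓞 K)) :
    l ∣ finrank K L := by
  classical
  have hmax := v.isMaximal
  rw [← sum_ef L v]
  refine Finset.dvd_sum fun q' _ => Dvd.dvd.mul_left ?_ _
  have h1 := q.2.1
  have h2 := q.2.2
  have h3 := q'.2.1
  have h4 := q'.2.2
  rwa [Ideal.inertiaDeg_eq_of_isGaloisGroup v.asIdeal q'.1 q.1 Gal(L/K)]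

/-! ### the limit -/

lemma limit_exists (u : ℕ → ℝ) (hu : ∀ n, 0 ≤ u n) (d : ℝ) (hd : 2 ≤ d) (C : ℝ) (hC : 0 ≤ C)
    (h : ∀ n, u (n + 1) ≤ C + d * u n) (D : ℝ) (hD : 0 < D) :
    ∃ r, Tendsto (fun n => u n / (D * d ^ n)) atTop (𝓝 r) := by
  have hd1 : 0 < d - 1 := by linarith
  have hd0 : 0 < d := by linarith
  set w : ℕ → ℝ := fun n => (u n + C / (d - 1)) / d ^ n with hw
  have hanti : Antitone w := by
    refine antitone_nat_of_succ_le fun n => ?_
    rw [hw]
    simp only
    rw [div_le_div_iff₀ (by positivity) (by positivity), pow_succ]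
    have h1 : u (n + 1) + C / (d - 1) ≤ d * (u n + C / (d - 1)) := by
      have h2 := h n
      have h3 : d * (C / (d - 1)) = C + C / (d - 1) := by
        field_simp
        ring
      rw [mul_add, h3]
      linarith
    have h2 : 0 < d ^ n := by positivity
    nlinarith
  have hbdd : BddBelow (Set.range w) := by
    refine ⟨0, ?_⟩
    rintro _ ⟨n, rfl⟩
    have := hu n
    rw [hw]
    positivity
  have hlim := tendsto_atTop_ciInf hanti hbdd
  have h0 : Tendsto (fun n : ℕ => (C / (d - 1)) / d ^ n) atTop (𝓝 0) :=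
    Tendsto.const_div_atTop (tendsto_pow_atTop_atTop_of_one_lt (by linarith)) _
  have h1 := (hlim.sub h0).div_const D
  refine ⟨_, h1.congr fun n => ?_⟩
  rw [hw]
  simp only
  have : (0 : ℝ) < d ^ n := by positivity
  field_simp
  ring

/-! ### the forms of the map -/

section forms

variable {F : Type} [Field F]

/-- the exponent of a monomial of the homogenized polynomial -/
noncomputable def hexp (a : Mon N d) : Fin (N + 1) →₀ ℕ :=
  Finsupp.equivFunOnFinite.symm (Fin.cons (d - ∑ i, a.1 i) a.1)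

lemma hexp_degree (a : Mon N d) : (hexp a).degree = d := by
  rw [Finsupp.degree_eq_sum]
  unfold hexp
  simp only [Finsupp.equivFunOnFinite_symm_apply_apply, Fin.sum_univ_succ, Fin.cons_zero,
    Fin.cons_succ]
  have := a.2
  omega

/-- the forms -/
noncomputable def frm (b : F) (c : Fin N → Mon N d → F) :
    Fin (N + 1) → MvPolynomial (Fin (N + 1)) F :=
  Fin.cons (MvPolynomial.monomial (Finsupp.single 0 d) b)
    (fun i => ∑ a : Mon N d, MvPolynomial.monomial (hexp a) (c i a))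

lemma frm_hom (b : F) (c : Fin N → Mon N d → F) (j : Fin (N + 1)) :
    (frm b c j).IsHomogeneous d := by
  refine Fin.cases ?_ (fun i => ?_) j
  · unfold frm
    rw [Fin.cons_zero]
    refine MvPolynomial.isHomogeneous_monomial _ ?_
    rw [Finsupp.degree_single]
  · unfold frm
    rw [Fin.cons_succ]
    refine MvPolynomial.IsHomogeneous.sum _ _ _ fun a _ => ?_
    exact MvPolynomial.isHomogeneous_monomial _ (hexp_degree a)

lemma frm_eval (b : F) (hb : b ≠ 0) (c : Fin N → Mon N d → F) (y : Fin N → F) :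
    (fun j => MvPolynomial.eval (Fin.cons 1 y : Fin (N + 1) → F) (frm b c j)) =
      b • (Fin.cons 1 (fun i => b⁻¹ * hev (c i) 1 y) : Fin (N + 1) → F) := by
  funext j
  rw [Pi.smul_apply, smul_eq_mul]
  refine Fin.cases ?_ (fun i => ?_) j
  · unfold frm
    rw [Fin.cons_zero, Fin.cons_zero, MvPolynomial.eval_monomial]
    simp
  · unfold frm
    rw [Fin.cons_succ, Fin.cons_succ, map_sum, hev_one, ← mul_assoc, mul_inv_cancel₀ hb, one_mul]
    refine Finset.sum_congr rfl fun a _ => ?_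
    rw [MvPolynomial.eval_monomial, Finsupp.prod_fintype _ _ (by simp)]
    unfold hexp mon
    simp only [Finsupp.equivFunOnFinite_symm_apply_apply, Fin.prod_univ_succ, Fin.cons_zero,
      Fin.cons_succ, one_pow, one_mul]

end forms

/-- the height of the image -/
theorem step_exists (b : 𝓞 K) (hb : b ≠ 0) (c : Fin N → Mon N d → 𝓞 K) :
    ∃ C : ℝ, 0 ≤ C ∧ ∀ y : Fin N → L, logHeight (Fin.cons 1 (pmap L b c y) : Fin (N + 1) → L) ≤
      C + d * logHeight (Fin.cons 1 y : Fin (N + 1) → L) := by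
  have hinj : Function.Injective (algebraMap (𝓞 K) L) :=
    FaithfulSMul.algebraMap_injective (𝓞 K) L
  have hb0 : algebraMap (𝓞 K) L b ≠ 0 := by rwa [Ne, map_eq_zero_iff _ hinj]
  obtain ⟨C, hC⟩ := logHeight_eval_le' (frm_hom (algebraMap (𝓞 K) L b)
    (fun i a => algebraMap (𝓞 K) L (c i a)))
  refine ⟨max C 0, le_max_right _ _, fun y => ?_⟩
  have h1 := hC (Fin.cons 1 y : Fin (N + 1) → L)
  rw [frm_eval _ hb0, logHeight_smul_eq_logHeight _ hb0] at h1
  refine h1.trans ?_
  have := le_max_left C 0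
  linarith

/-- **The canonical height exists and is large.** -/
theorem canonical (hd : 2 ≤ d) (b : 𝓞 K) (hb : b ≠ 0) (c : Fin N → Mon N d → 𝓞 K)
    (x : Fin N → L) : ∃ r : ℝ, Tendsto (fun n : ℕ =>
      logHeight (Fin.cons 1 ((pmap L b c)^[n] x) : Fin (N + 1) → L) /
        ((finrank ℚ L : ℝ) * (d : ℝ) ^ n)) atTop (𝓝 r) := by
  obtain ⟨C, hC0, hC⟩ := step_exists (L := L) b hb c
  refine limit_exists (fun n => logHeight (Fin.cons 1 ((pmap L b c)^[n] x) : Fin (N + 1) → L))
    (fun n => logHeight_nonneg _) (d : ℝ) (by exact_mod_cast hd) C hC0 (fun n => ?_) _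
    (Nat.cast_pos.2 finrank_pos)
  rw [Function.iterate_succ_apply']
  exact hC _

theorem lower (hd : 2 ≤ d) (v : HeightOneSpectrum (𝓞 K)) (b : 𝓞 K) (hb : b ∈ v.asIdeal)
    (hb0 : b ≠ 0) (c : Fin N → Mon N d → 𝓞 K)
    (hc : GoodSys fun i b => Ideal.Quotient.mk v.asIdeal (c i b)) [IsGalois K L]
    (hL : ∀ l : ℕ, l.Prime → l ≤ Bd N d → ¬ l ∣ finrank K L) (x : Fin N → L) (r : ℝ)
    (hr : Tendsto (fun n : ℕ => logHeight (Fin.cons 1 ((pmap L b c)^[n] x) : Fin (N + 1) → L) /
        ((finrank ℚ L : ℝ) * (d : ℝ) ^ n)) atTop (𝓝 r)) :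
    Real.log (Ideal.absNorm v.asIdeal) / (d * finrank ℚ K) ≤ r := by
  have hKL : (finrank ℚ L : ℝ) = finrank ℚ K * finrank K L := by
    rw [← Nat.cast_mul, finrank_mul_finrank ℚ K L]
  have hK0 : (0 : ℝ) < finrank ℚ K := Nat.cast_pos.2 finrank_pos
  have hfin : FiniteDimensional K L := Module.Finite.of_restrictScalars_finite ℚ K L
  have hL0 : (0 : ℝ) < finrank K L := Nat.cast_pos.2 finrank_pos
  have hd0 : (0 : ℝ) < d := Nat.cast_pos.2 (by omega)
  refine Pool.Agent.TH377.Dyn.limit_bound hr _ fun n => ?_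
  have h1 := height_iter v b hb hb0 c hc
    (fun q l hl hlB hdvd => hL l hl hlB (inertia_dvd v q l hdvd)) x n
  rw [hKL, div_le_div_iff₀ (by positivity) (by positivity)]
  calc Real.log (Ideal.absNorm v.asIdeal) * (↑(finrank ℚ K) * ↑(finrank K L) * (d : ℝ) ^ (n + 1)) =
      (finrank K L * ((d : ℝ) ^ n * Real.log (Ideal.absNorm v.asIdeal))) *
        (d * finrank ℚ K) := by
        rw [pow_succ]
        ring
    _ ≤ _ := mul_le_mul_of_nonneg_right h1 (by positivity)

end Pool.Agent.D0H55.LN
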