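import Pool.Agent.D0H55.LN.Pol

/-!
# The matrix of the multiples of the leading forms

If its determinant is not zero, the leading forms have no common zero and the coordinates of the
common zeros of the polynomials have bounded degree.
-/

set_option autoImplicit false

namespace Pool.Agent.D0H55.LN

open Finset Matrix

/-- the exponents of the monomials of degree `N (d - 1) + 1` -/
abbrev Top (N d : ℕ) : Type := {a : Fin N → ℕ // ∑ i, a i = N * (d - 1) + 1}

lemma top_finite (N d : ℕ) : Finite (Top N d) := by
  have := mon_finite N (N * (d - 1) + 1)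
  exact Finite.of_injective (fun a : Top N d => (⟨a.1, a.2.le⟩ : Mon N (N * (d - 1) + 1)))
    fun a b h => Subtype.ext (congrArg (fun z : Mon N (N * (d - 1) + 1) => z.1) h)

noncomputable instance (N d : ℕ) : Fintype (Top N d) :=
  @Fintype.ofFinite _ (top_finite N d)

noncomputable instance (N d : ℕ) : DecidableEq (Top N d) := Classical.decEq _

variable {N d : ℕ}

lemma top_big (a : Top N d) : ∃ i, d ≤ a.1 i := by
  by_contra h
  push Not at h
  have h1 : ∑ i, a.1 i ≤ ∑ _i : Fin N, (d - 1) :=
    sum_le_sum fun i _ => by
      have := h i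
      omega
  rw [sum_const, card_univ, Fintype.card_fin, smul_eq_mul, a.2] at h1
  omega

/-- a variable with large exponent -/
noncomputable def idx (a : Top N d) : Fin N := (top_big a).choose

lemma idx_spec (a : Top N d) : d ≤ a.1 (idx a) := (top_big a).choose_spec

/-- the complementary exponent -/
noncomputable def low (a : Top N d) : Fin N → ℕ := fun i => a.1 i - (Pi.single (idx a) d : Fin N → ℕ) i

lemma low_add (a : Top N d) : low a + Pi.single (idx a) d = a.1 := by
  funext i
  rw [Pi.add_apply]
  unfold low
  by_cases h : i = idx a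
  · subst h
    rw [Pi.single_eq_same]
    exact Nat.sub_add_cancel (idx_spec a)
  · rw [Pi.single_eq_of_ne h]
    omega

lemma low_sum (a : Top N d) : ∑ i, low a i + d = N * (d - 1) + 1 := by
  have h := congrArg (fun f : Fin N → ℕ => ∑ i, f i) (low_add a)
  simp only [Pi.add_apply, sum_add_distrib] at h
  rw [a.2] at h
  rw [← h]
  congr 1
  rw [sum_eq_single (idx a)]
  · rw [Pi.single_eq_same]
  · intro i _ hi
    rw [Pi.single_eq_of_ne hi]
  · intro h
    exact absurd (mem_univ _) h

open Classical in
/-- the matrix -/
noncomputable def mat {A : Type*} [CommRing A] (c : Fin N → Mon N d → A) :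
    Matrix (Top N d) (Top N d) A :=
  fun a a' => ∑ b : Mon N d, if low a + b.1 = a'.1 then c (idx a) b else 0

open Classical in
lemma mat_mulVec {A : Type*} [CommRing A] (c : Fin N → Mon N d → A) (x : Fin N → A)
    (a : Top N d) : (mat c).mulVec (fun a' => mon x a'.1) a =
      ∑ b : Mon N d, if ∑ i, b.1 i = d then c (idx a) b * mon x (low a + b.1) else 0 := by
  unfold Matrix.mulVec dotProduct mat
  simp only [sum_mul]
  rw [sum_comm]
  refine sum_congr rfl fun b _ => ?_
  have hs : ∑ i, (low a + b.1) i + d = N * (d - 1) + 1 + ∑ i, b.1 i := by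
    have := low_sum a
    simp only [Pi.add_apply, sum_add_distrib]
    omega
  by_cases hb : ∑ i, b.1 i = d
  · rw [if_pos hb]
    have h1 : ∑ i, (low a + b.1) i = N * (d - 1) + 1 := by omega
    rw [sum_eq_single (⟨low a + b.1, h1⟩ : Top N d)]
    · rw [if_pos rfl]
    · intro a' _ ha'
      rw [if_neg, zero_mul]
      intro h
      exact ha' (Subtype.ext h.symm)
    · intro h
      exact absurd (mem_univ _) h
  · rw [if_neg hb]
    refine sum_eq_zero fun a' _ => ?_
    rw [if_neg, zero_mul]
    intro h
    have := a'.2
    rw [← h] at this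
    omega

open Classical in
/-- the special system `x_i ^ d` -/
noncomputable def spec (A : Type*) [CommRing A] (N d : ℕ) : Fin N → Mon N d → A :=
  fun i b => if b.1 = Pi.single i d then 1 else 0

lemma mat_spec {A : Type*} [CommRing A] (c : Fin N → Mon N d → A) (t : A) :
    mat (c + t • spec A N d) = mat c + t • (1 : Matrix (Top N d) (Top N d) A) := by
  classical
  ext a a'
  rw [Matrix.add_apply, Matrix.smul_apply, Matrix.one_apply]
  unfold mat
  have h1 : ∀ b : Mon N d, (if low a + b.1 = a'.1 then (c + t • spec A N d) (idx a) b else 0) =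
      (if low a + b.1 = a'.1 then c (idx a) b else 0) +
        (if low a + b.1 = a'.1 then (if b.1 = Pi.single (idx a) d then t else 0) else 0) := by
    intro b
    split_ifs with h2 h3
    · simp [spec, h3]
    · simp [spec, h3]
    · rw [add_zero]
  rw [sum_congr rfl fun b _ => h1 b, sum_add_distrib]
  congr 1
  have hd : ∑ i, (Pi.single (idx a) d : Fin N → ℕ) i ≤ d := by
    rw [sum_eq_single (idx a)]
    · rw [Pi.single_eq_same]
    · intro i _ hi
      rw [Pi.single_eq_of_ne hi]
    · intro h
      exact absurd (mem_univ _) h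
  rw [sum_eq_single (⟨Pi.single (idx a) d, hd⟩ : Mon N d)]
  · rw [low_add, if_pos rfl]
    by_cases h : a = a'
    · rw [if_pos (by rw [h]), if_pos h, smul_eq_mul, mul_one]
    · rw [if_neg (fun h' => h (Subtype.ext h')), if_neg h, smul_eq_mul, mul_zero]
  · intro b _ hb
    split_ifs with h2 h3
    · exact absurd (Subtype.ext h3) hb
    · rfl
    · rfl
  · intro h
    exact absurd (mem_univ _) h

lemma map_mat {A B : Type*} [CommRing A] [CommRing B] (f : A →+* B) (c : Fin N → Mon N d → A) :
    (mat c).map f = mat (fun i b => f (c i b)) := by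
  classical
  ext a a'
  rw [Matrix.map_apply]
  unfold mat
  rw [map_sum]
  refine sum_congr rfl fun b _ => ?_
  split_ifs
  · rfl
  · exact map_zero f

/-- no common zero of the leading forms -/
theorem lead_zero {E : Type*} [Field E] (c : Fin N → Mon N d → E) (hdet : (mat c).det ≠ 0)
    (x : Fin N → E) (hx : ∀ i, hev (c i) 0 x = 0) : x = 0 := by
  classical
  have h1 : (mat c).mulVec (fun a' => mon x a'.1) = 0 := by
    funext a
    rw [mat_mulVec, Pi.zero_apply]
    have h2 : ∑ b : Mon N d, (if ∑ i, b.1 i = d then c (idx a) b * mon x (low a + b.1) else 0) =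
        mon x (low a) * hev (c (idx a)) 0 x := by
      unfold hev
      rw [mul_sum]
      refine sum_congr rfl fun b _ => ?_
      by_cases hb : ∑ i, b.1 i = d
      · rw [if_pos hb, hb, Nat.sub_self, pow_zero, mon_add]
        ring
      · have : d - ∑ i, b.1 i ≠ 0 := by
          have := b.2
          omega
        rw [if_neg hb, zero_pow this]
        ring
    rw [h2, hx, mul_zero]
  have h3 := Matrix.eq_zero_of_mulVec_eq_zero hdet h1
  funext j
  have h4 : ∑ i, (Pi.single j (N * (d - 1) + 1) : Fin N → ℕ) i = N * (d - 1) + 1 := by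
    rw [sum_eq_single j]
    · rw [Pi.single_eq_same]
    · intro i _ hi
      rw [Pi.single_eq_of_ne hi]
    · intro h
      exact absurd (mem_univ _) h
  have h5 := congrFun h3 (⟨Pi.single j (N * (d - 1) + 1), h4⟩ : Top N d)
  simp only [Pi.zero_apply, mon_single] at h5
  exact pow_eq_zero_iff (by omega) |>.1 h5

/-- the value of a monomial of degree `N (d - 1) + 1` at a common zero -/
theorem top_mem {k E : Type*} [Field k] [Field E] [Algebra k E] (c : Fin N → Mon N d → k)
    (hdet : (mat c).det ≠ 0) (x : Fin N → E)
    (hx : ∀ i, hev (fun b => algebraMap k E (c i b)) 1 x = 0) (m' : Fin N → ℕ) (a : Top N d)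
    (W : Submodule k E) (hW : ∀ m : Fin N → ℕ, ∑ i, m i < ∑ i, a.1 i + ∑ i, m' i →
      mon x m ∈ W) : mon x (a.1 + m') ∈ W := by
  classical
  set cE : Fin N → Mon N d → E := fun i b => algebraMap k E (c i b) with hcE
  have hu : IsUnit (mat c).det := isUnit_iff_ne_zero.2 hdet
  -- the images of the rows
  have h1 : ∀ a : Top N d, (mat cE).mulVec (fun a' => mon x a'.1) a =
      -∑ b : Mon N d, if ∑ i, b.1 i = d then 0 else cE (idx a) b * mon x (low a + b.1) := by
    intro a
    rw [mat_mulVec, eq_neg_iff_add_eq_zero, ← sum_add_distrib]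
    have h2 : ∑ b : Mon N d, ((if ∑ i, b.1 i = d then cE (idx a) b * mon x (low a + b.1) else 0) +
        (if ∑ i, b.1 i = d then 0 else cE (idx a) b * mon x (low a + b.1))) =
        mon x (low a) * hev (cE (idx a)) 1 x := by
      rw [hev_one, mul_sum]
      refine sum_congr rfl fun b _ => ?_
      rw [mon_add]
      split_ifs <;> ring
    rw [h2, hx, mul_zero]
  have h2 : ∀ a : Top N d, mon x m' * (mat cE).mulVec (fun a' => mon x a'.1) a ∈ W ∨
      ¬ (∑ i, a.1 i + ∑ i, m' i = N * (d - 1) + 1 + ∑ i, m' i) := by
    intro a'
    left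
    rw [h1, mul_neg, mul_sum]
    refine W.neg_mem (W.sum_mem fun b _ => ?_)
    split_ifs with hb
    · rw [mul_zero]
      exact W.zero_mem
    · have h3 : mon x m' * (cE (idx a') b * mon x (low a' + b.1)) =
          c (idx a') b • mon x (low a' + b.1 + m') := by
        rw [Algebra.smul_def, mon_add x (low a' + b.1)]
        ring
      rw [h3]
      refine W.smul_mem _ (hW _ ?_)
      have h4 := low_sum a'
      have h5 := b.2
      have h6 := a.2
      simp only [Pi.add_apply, sum_add_distrib]
      omega
  -- invert the matrix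
  have h3 : (fun a' : Top N d => mon x a'.1) =
      (mat cE)⁻¹.mulVec ((mat cE).mulVec (fun a' => mon x a'.1)) := by
    have hdetE : IsUnit (mat cE).det := by
      rw [hcE, ← map_mat (algebraMap k E) c]
      have : ((mat c).map (algebraMap k E)).det = algebraMap k E (mat c).det :=
        ((algebraMap k E).map_det (mat c)).symm
      rw [this]
      exact hu.map _
    rw [Matrix.mulVec_mulVec, Matrix.nonsing_inv_mul _ hdetE, Matrix.one_mulVec]
  have hinv : (mat cE)⁻¹ = ((mat c)⁻¹).map (algebraMap k E) := by
    have e1 : mat cE = (mat c).map (algebraMap k E) := (map_mat (algebraMap k E) c).symm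
    rw [e1]
    refine Matrix.inv_eq_left_inv ?_
    rw [← Matrix.map_mul, Matrix.nonsing_inv_mul _ hu]
    exact Matrix.map_one _ (map_zero _) (map_one _)
  have h4 : mon x a.1 = ((mat cE)⁻¹.mulVec ((mat cE).mulVec (fun a' => mon x a'.1))) a :=
    congrFun h3 a
  rw [mon_add, mul_comm, h4, hinv]
  change mon x m' * ∑ a' : Top N d, ((mat c)⁻¹.map (algebraMap k E)) a a' *
    (mat cE).mulVec (fun a' => mon x a'.1) a' ∈ W
  rw [mul_sum]
  refine W.sum_mem fun a' _ => ?_
  rw [Matrix.map_apply]
  have h5 : mon x m' * (algebraMap k E ((mat c)⁻¹ a a') *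
      (mat cE).mulVec (fun a' => mon x a'.1) a') =
      (mat c)⁻¹ a a' • (mon x m' * (mat cE).mulVec (fun a' => mon x a'.1) a') := by
    rw [Algebra.smul_def]
    ring
  rw [h5]
  refine W.smul_mem _ ?_
  rcases h2 a' with h6 | h6
  · exact h6
  · exact absurd (by rw [a'.2]) h6

/-- all monomials at a common zero are combinations of the monomials of degree at most
`N (d - 1)` -/
theorem all_mem {k E : Type*} [Field k] [Field E] [Algebra k E] (c : Fin N → Mon N d → k)
    (hdet : (mat c).det ≠ 0) (x : Fin N → E)
    (hx : ∀ i, hev (fun b => algebraMap k E (c i b)) 1 x = 0) (m : Fin N → ℕ) :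
    mon x m ∈ Submodule.span k (Set.range fun b : Mon N (N * (d - 1)) => mon x b.1) := by
  set W := Submodule.span k (Set.range fun b : Mon N (N * (d - 1)) => mon x b.1) with hW
  suffices h : ∀ (n : ℕ) (m : Fin N → ℕ), ∑ i, m i = n → mon x m ∈ W from h _ m rfl
  intro n
  induction n using Nat.strong_induction_on with
  | _ n ih =>
    intro m hm
    by_cases hn : n ≤ N * (d - 1)
    · exact Submodule.subset_span ⟨⟨m, hm.trans_le hn⟩, rfl⟩
    · push Not at hn
      -- a part of degree `N (d - 1) + 1`
      have hpart : ∀ (M : ℕ) (m : Fin N → ℕ), M ≤ ∑ i, m i →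
          ∃ a a' : Fin N → ℕ, a + a' = m ∧ ∑ i, a i = M := by
        intro M
        induction M with
        | zero =>
          intro m _
          exact ⟨0, m, zero_add m, by simp⟩
        | succ M ihM =>
          intro m hM
          obtain ⟨a, a', h1, h2⟩ := ihM m (by omega)
          have h3 : ∃ j, 0 < a' j := by
            by_contra h4
            push Not at h4
            have h5 : ∑ i, m i = ∑ i, a i := by
              rw [← h1]
              refine sum_congr rfl fun i _ => ?_
              have := h4 i
              rw [Pi.add_apply]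
              omega
            omega
          obtain ⟨j, hj⟩ := h3
          refine ⟨a + Pi.single j 1, fun i => a' i - (Pi.single j 1 : Fin N → ℕ) i, ?_, ?_⟩
          · rw [← h1]
            funext i
            simp only [Pi.add_apply]
            by_cases hi : i = j
            · subst hi
              rw [Pi.single_eq_same]
              omega
            · rw [Pi.single_eq_of_ne hi]
              omega
          · simp only [Pi.add_apply, sum_add_distrib]
            rw [h2]
            congr 1
            rw [sum_eq_single j]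
            · rw [Pi.single_eq_same]
            · intro i _ hi
              rw [Pi.single_eq_of_ne hi]
            · intro h
              exact absurd (mem_univ _) h
      obtain ⟨a, a', h1, h2⟩ := hpart (N * (d - 1) + 1) m (by omega)
      rw [← h1]
      refine top_mem c hdet x hx a' ⟨a, h2⟩ W fun m₂ hm₂ => ih _ ?_ m₂ rfl
      refine lt_of_lt_of_eq hm₂ ?_
      rw [← hm, ← h1]
      simp only [Pi.add_apply, sum_add_distrib]

/-- the degrees of the coordinates of a common zero -/
theorem degree_le {k E : Type*} [Field k] [Field E] [Algebra k E] [FiniteDimensional k E]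
    (c : Fin N → Mon N d → k) (hdet : (mat c).det ≠ 0) (x : Fin N → E)
    (hx : ∀ i, hev (fun b => algebraMap k E (c i b)) 1 x = 0) (j : Fin N) :
    (minpoly k (x j)).natDegree ≤ (N + N * (d - 1)).choose N := by
  set W := Submodule.span k (Set.range fun b : Mon N (N * (d - 1)) => mon x b.1) with hW
  have h1 : ∀ n : ℕ, x j ^ n ∈ W := by
    intro n
    rw [← mon_single]
    exact all_mem c hdet x hx _
  have h2 : LinearIndependent k (fun i : Fin (minpoly k (x j)).natDegree => (⟨x j ^ (i : ℕ), h1 i⟩ : W)) := by
    have h3 := linearIndependent_pow (K := k) (x j)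
    refine LinearIndependent.of_comp W.subtype ?_
    exact h3
  have h3 := h2.fintype_card_le_finrank
  rw [Fintype.card_fin] at h3
  rw [← mon_card]
  exact h3.trans (finrank_range_le_card _)

end Pool.Agent.D0H55.LN
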