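import Pool.Agent.D0H55.LN.Mac

/-!
# Systems without zeros over the extensions whose degree has no small prime factor
-/

set_option autoImplicit false

namespace Pool.Agent.D0H55.LN

open Finset Matrix

variable {N d : ℕ}

/-- the good systems over a field -/
def GoodSys {k : Type*} [CommRing k] (c : Fin N → Mon N d → k) : Prop :=
  (mat c).det ≠ 0 ∧ ∀ x : Fin N → k, ∃ i, hev (c i) 1 x ≠ 0

/-- the bound for the prime factors -/
def Bd (N d : ℕ) : ℕ := (N + N * (d - 1)).choose N

theorem no_zero {k E : Type*} [Field k] [Field E] [Algebra k E] [FiniteDimensional k E]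
    (c : Fin N → Mon N d → k) (hc : GoodSys c)
    (hf : ∀ l : ℕ, l.Prime → l ≤ Bd N d → ¬ l ∣ Module.finrank k E)
    (t : E) (x : Fin N → E) (hne : t ≠ 0 ∨ x ≠ 0) :
    ∃ i, hev (fun b => algebraMap k E (c i b)) t x ≠ 0 := by
  by_contra hcon
  push Not at hcon
  by_cases ht : t = 0
  · subst ht
    have hx : x ≠ 0 := by
      rcases hne with h | h
      · exact absurd rfl h
      · exact h
    refine hx (lead_zero (fun i b => algebraMap k E (c i b)) ?_ x hcon)
    rw [← map_mat (algebraMap k E) c]
    have : ((mat c).map (algebraMap k E)).det = algebraMap k E (mat c).det :=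
      ((algebraMap k E).map_det (mat c)).symm
    rw [this, Ne, map_eq_zero]
    exact hc.1
  · have h1 : ∀ i, hev (fun b => algebraMap k E (c i b)) 1 (fun j => t⁻¹ * x j) = 0 := by
      intro i
      have h2 := hev_smul (fun b => algebraMap k E (c i b)) t⁻¹ t x
      rw [inv_mul_cancel₀ ht, hcon, mul_zero] at h2
      exact h2
    have h2 : ∀ j, ∃ y : k, algebraMap k E y = t⁻¹ * x j := by
      intro j
      have hint : IsIntegral k (t⁻¹ * x j) := Algebra.IsIntegral.isIntegral _
      have h3 := degree_le c hc.1 (fun j => t⁻¹ * x j) h1 j
      have h4 : (minpoly k (t⁻¹ * x j)).natDegree ∣ Module.finrank k E := minpoly.degree_dvd hint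
      have h5 : (minpoly k (t⁻¹ * x j)).natDegree = 1 := by
        by_contra h6
        obtain ⟨l, hl, hl2⟩ := Nat.exists_prime_and_dvd h6
        exact hf l hl ((Nat.le_of_dvd (minpoly.natDegree_pos hint) hl2).trans h3) (hl2.trans h4)
      exact minpoly.natDegree_eq_one_iff.1 h5
    choose y hy using h2
    obtain ⟨i, hi⟩ := hc.2 y
    apply hi
    have h3 := h1 i
    have h4 : hev (fun b => algebraMap k E (c i b)) 1 (fun j => t⁻¹ * x j) =
        algebraMap k E (hev (c i) 1 y) := by
      rw [map_hev, map_one]
      congr 1
      funext j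
      exact (hy j).symm
    rw [h4] at h3
    exact (map_eq_zero _).1 h3

/-! ### the number of systems with determinant zero -/

section finite

variable {k : Type*} [Field k] [Fintype k] [DecidableEq k]

instance finG : Finite (Fin N → Mon N d → k) := inferInstance

/-- the values of `t` for which the determinant vanishes -/
lemma few_t {m : Type*} [Fintype m] [DecidableEq m] (M : Matrix m m k) :
    (univ.filter fun t : k => (M + t • (1 : Matrix m m k)).det = 0).card ≤ Fintype.card m := by
  have h1 : (univ.filter fun t : k => (M + t • (1 : Matrix m m k)).det = 0) ⊆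
      (-M).charpoly.roots.toFinset := by
    intro t ht
    rw [mem_filter] at ht
    rw [Multiset.mem_toFinset, Polynomial.mem_roots (Matrix.charpoly_monic _).ne_zero,
      Polynomial.IsRoot.def, Matrix.eval_charpoly]
    rw [sub_neg_eq_add, add_comm]
    have : (Matrix.scalar m t : Matrix m m k) = t • (1 : Matrix m m k) := by
      ext i j
      by_cases h : i = j
      · subst h
        simp
      · simp [h]
    rw [this]
    exact ht.2
  refine (card_le_card h1).trans ((Multiset.toFinset_card_le _).trans
    ((Polynomial.card_roots' _).trans ?_))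
  rw [Matrix.charpoly_natDegree_eq_dim]

theorem det_count : (univ.filter fun c : Fin N → Mon N d → k => (mat c).det = 0).card *
    Fintype.card k ≤ Fintype.card (Top N d) * Fintype.card (Fin N → Mon N d → k) := by
  classical
  have h1 : ∀ t : k, (univ.filter fun c : Fin N → Mon N d → k =>
      (mat c + t • (1 : Matrix (Top N d) (Top N d) k)).det = 0).card =
      (univ.filter fun c : Fin N → Mon N d → k => (mat c).det = 0).card := by
    intro t
    refine card_bij (fun c _ => c + t • spec k N d) ?_ ?_ ?_
    · intro c hc
      rw [mem_filter] at hc ⊢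
      refine ⟨mem_univ _, ?_⟩
      rw [mat_spec]
      exact hc.2
    · intro c _ c' _ h
      exact add_right_cancel h
    · intro c hc
      rw [mem_filter] at hc
      refine ⟨c - t • spec k N d, ?_, sub_add_cancel _ _⟩
      rw [mem_filter]
      refine ⟨mem_univ _, ?_⟩
      rw [← mat_spec, sub_add_cancel]
      exact hc.2
  calc (univ.filter fun c : Fin N → Mon N d → k => (mat c).det = 0).card * Fintype.card k =
      ∑ t : k, (univ.filter fun c : Fin N → Mon N d → k =>
        (mat c + t • (1 : Matrix (Top N d) (Top N d) k)).det = 0).card := by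
        rw [sum_congr rfl fun t _ => h1 t, sum_const, card_univ, smul_eq_mul, mul_comm]
    _ = ∑ c : Fin N → Mon N d → k, (univ.filter fun t : k =>
        (mat c + t • (1 : Matrix (Top N d) (Top N d) k)).det = 0).card := by
        simp only [card_filter]
        rw [sum_comm]
    _ ≤ ∑ _c : Fin N → Mon N d → k, Fintype.card (Top N d) :=
        sum_le_sum fun c _ => few_t (mat c)
    _ = _ := by
        rw [sum_const, card_univ, smul_eq_mul, mul_comm]

end finite

end Pool.Agent.D0H55.LN
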