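import Mathlib

/-!
# Polynomials of degree at most `d` in `N` variables, given by their coefficients
-/

set_option autoImplicit false

namespace Pool.Agent.D0H55.LN

open Finset

/-- the exponents of the monomials of degree at most `d` in `N` variables -/
abbrev Mon (N d : ℕ) : Type := {a : Fin N → ℕ // ∑ i, a i ≤ d}

lemma mon_finite (N d : ℕ) : Finite (Mon N d) := by
  have h : ({a : Fin N → ℕ | ∑ i, a i ≤ d}).Finite := by
    refine (Set.finite_Iic (fun _ : Fin N => d)).subset ?_
    intro a ha i
    exact (single_le_sum (f := a) (fun j _ => Nat.zero_le _) (mem_univ i)).trans ha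
  exact h

noncomputable instance (N d : ℕ) : Fintype (Mon N d) :=
  @Fintype.ofFinite _ (mon_finite N d)

/-- the number of monomials -/
lemma mon_card (N d : ℕ) : Fintype.card (Mon N d) = (N + d).choose N := by
  let e : {P : Fin (N + 1) → ℕ // ∑ i, P i = d} ≃ Mon N d :=
    { toFun := fun P => ⟨fun i => P.1 i.succ, by
        have h := P.2
        rw [Fin.sum_univ_succ] at h
        change ∑ i : Fin N, P.1 i.succ ≤ d
        omega⟩
      invFun := fun a => ⟨Fin.cons (d - ∑ i, a.1 i) a.1, by
        rw [Fin.sum_univ_succ]
        simp only [Fin.cons_zero, Fin.cons_succ]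
        have := a.2
        omega⟩
      left_inv := by
        intro P
        apply Subtype.ext
        funext i
        refine Fin.cases ?_ (fun i => ?_) i
        · simp only [Fin.cons_zero]
          have := P.2
          rw [Fin.sum_univ_succ] at this
          omega
        · simp only [Fin.cons_succ]
      right_inv := by
        intro a
        apply Subtype.ext
        funext i
        simp only [Fin.cons_succ] }
  have h1 : Fintype.card (Mon N d) = Nat.card (Sym (Fin (N + 1)) d) := by
    rw [← Nat.card_eq_fintype_card]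
    exact Nat.card_congr (e.symm.trans (Sym.equivNatSumOfFintype (Fin (N + 1)) d).symm)
  rw [h1, Nat.card_eq_fintype_card, Sym.card_sym_eq_choose, Fintype.card_fin]
  have h2 : N + 1 + d - 1 = N + d := by omega
  rw [h2]
  exact (Nat.choose_symm_add).symm

section

variable {N d : ℕ} {A : Type*} [CommRing A]

/-- a monomial -/
def mon (x : Fin N → A) (a : Fin N → ℕ) : A := ∏ i, x i ^ a i

lemma mon_add (x : Fin N → A) (a b : Fin N → ℕ) : mon x (a + b) = mon x a * mon x b := by
  unfold mon
  rw [← prod_mul_distrib]
  exact prod_congr rfl fun i _ => pow_add _ _ _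

lemma mon_zero (x : Fin N → A) : mon x 0 = 1 := by simp [mon]

lemma mon_single (x : Fin N → A) (j : Fin N) (n : ℕ) : mon x (Pi.single j n) = x j ^ n := by
  unfold mon
  rw [prod_eq_single j]
  · rw [Pi.single_eq_same]
  · intro i _ hi
    rw [Pi.single_eq_of_ne hi, pow_zero]
  · intro h
    exact absurd (mem_univ j) h

lemma mon_smul (s : A) (x : Fin N → A) (a : Fin N → ℕ) :
    mon (fun i => s * x i) a = s ^ (∑ i, a i) * mon x a := by
  unfold mon
  rw [← prod_pow_eq_pow_sum, ← prod_mul_distrib]
  exact prod_congr rfl fun i _ => mul_pow _ _ _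

lemma map_mon {B : Type*} [CommRing B] (f : A →+* B) (x : Fin N → A) (a : Fin N → ℕ) :
    f (mon x a) = mon (fun i => f (x i)) a := by
  unfold mon
  rw [map_prod]
  exact prod_congr rfl fun i _ => map_pow _ _ _

/-- the value at `(t, x)` of the homogenized polynomial with the coefficients `c` -/
noncomputable def hev (c : Mon N d → A) (t : A) (x : Fin N → A) : A :=
  ∑ a : Mon N d, c a * (t ^ (d - ∑ i, a.1 i) * mon x a.1)

lemma map_hev {B : Type*} [CommRing B] (f : A →+* B) (c : Mon N d → A) (t : A) (x : Fin N → A) :
    f (hev c t x) = hev (fun a => f (c a)) (f t) (fun i => f (x i)) := by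
  unfold hev
  rw [map_sum]
  refine sum_congr rfl fun a _ => ?_
  rw [map_mul, map_mul, map_pow, map_mon]

lemma hev_smul (c : Mon N d → A) (s t : A) (x : Fin N → A) :
    hev c (s * t) (fun i => s * x i) = s ^ d * hev c t x := by
  unfold hev
  rw [mul_sum]
  refine sum_congr rfl fun a _ => ?_
  rw [mon_smul, mul_pow]
  have h : s ^ d = s ^ (d - ∑ i, a.1 i) * s ^ (∑ i, a.1 i) := by
    rw [← pow_add, Nat.sub_add_cancel a.2]
  rw [h]
  ring

lemma hev_one (c : Mon N d → A) (x : Fin N → A) : hev c 1 x = ∑ a : Mon N d, c a * mon x a.1 := by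
  unfold hev
  refine sum_congr rfl fun a _ => ?_
  rw [one_pow, one_mul]

lemma hev_add (c c' : Mon N d → A) (t : A) (x : Fin N → A) :
    hev (c + c') t x = hev c t x + hev c' t x := by
  unfold hev
  rw [← sum_add_distrib]
  exact sum_congr rfl fun a _ => by rw [Pi.add_apply, add_mul]

end

end Pool.Agent.D0H55.LN
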