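import Pool.Agent.D0H55.LN.Zf
import Pool.Agent.D0H55.LL.Main

/-!
# The vectors which are bad modulo a prime number
-/

set_option autoImplicit false

namespace Pool.Agent.D0H55.LN

open NumberField IsDedekindDomain Module
open Pool.Agent.D0H55.LL (exists_above le_norm gd card_preim Few exc_final)

variable {N d : ℕ} {K : Type} [Field K]

/-- the system is good modulo `v` -/
def GoodAt (v : HeightOneSpectrum (𝓞 K)) (c : Fin N → Mon N d → 𝓞 K) : Prop :=
  GoodSys fun i b => Ideal.Quotient.mk v.asIdeal (c i b)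

/-- the coordinates modulo `p` -/
noncomputable def coordP {J : Type} (ω : Basis J ℤ (𝓞 K)) (c : Fin N → Mon N d → 𝓞 K)
    (p : ℕ) : (Fin N × Mon N d) × J → ZMod p :=
  fun s => ((ω.repr (c s.1.1 s.1.2) s.2 : ℤ) : ZMod p)

/-- the bound for the primes -/
noncomputable def P0 (N d : ℕ) : ℕ := 12 * (1 + Fintype.card (Top N d))

/-- no prime above `p` is good for the vectors with these coordinates -/
def BadK {J : Type} (ω : Basis J ℤ (𝓞 K)) (N d p : ℕ) : Set ((Fin N × Mon N d) × J → ZMod p) :=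
  {x | P0 N d ≤ p ∧ ∀ v : HeightOneSpectrum (𝓞 K), (p : 𝓞 K) ∈ v.asIdeal →
    ∀ y : Fin N → Mon N d → 𝓞 K, coordP ω y p = x → ¬ GoodAt v y}

variable [NumberField K]

theorem few_bad {J : Type} [Fintype J] (ω : Basis J ℤ (𝓞 K)) (hN : 1 ≤ N) (hd : 2 ≤ d) :
    Few 4 (BadK ω N d) := by
  classical
  intro p hp
  have hp0 : (0 : ℝ) < p := by exact_mod_cast hp.pos
  have hp1 : (1 : ℝ) ≤ p := by exact_mod_cast hp.one_le
  have hgd : (3 : ℝ) / 4 ≤ gd 4 p := by
    unfold gd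
    have e2 : 1 / (p : ℝ) ≤ 1 := by
      rw [div_le_one hp0]
      exact hp1
    have e3 : 0 ≤ 1 / (p : ℝ) := by positivity
    push_cast
    nlinarith
  by_cases hP : P0 N d ≤ p
  swap
  · have h1 : BadK ω N d p = ∅ := by
      rw [Set.eq_empty_iff_forall_notMem]
      intro x hx
      exact hP hx.1
    rw [h1, Set.ncard_empty, Nat.cast_zero]
    positivity
  obtain ⟨v, hpv⟩ := exists_above K p hp
  have hmax : v.asIdeal.IsMaximal := v.isMaximal
  have hfin : Finite (𝓞 K ⧸ v.asIdeal) := Ideal.finiteQuotientOfFreeOfNeBot _ v.ne_bot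
  let _ : Field (𝓞 K ⧸ v.asIdeal) := Ideal.Quotient.field _
  have hft : Fintype (𝓞 K ⧸ v.asIdeal) := Fintype.ofFinite _
  have : Fact p.Prime := ⟨hp⟩
  have h0 : ((p : ℕ) : 𝓞 K ⧸ v.asIdeal) = 0 := by
    rw [← map_natCast (Ideal.Quotient.mk v.asIdeal)]
    exact Ideal.Quotient.eq_zero_iff_mem.2 hpv
  have hchar : CharP (𝓞 K ⧸ v.asIdeal) p := (CharP.charP_iff_prime_eq_zero hp).2 h0
  let F : ((Fin N × Mon N d) × J → ZMod p) →+ (Fin N → Mon N d → 𝓞 K ⧸ v.asIdeal) :=
    { toFun := fun x i b => ∑ j, ZMod.castHom (dvd_refl p) (𝓞 K ⧸ v.asIdeal) (x ((i, b), j)) *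
        Ideal.Quotient.mk v.asIdeal (ω j)
      map_zero' := by
        funext i b
        simp
      map_add' := by
        intro x y
        funext i b
        simp only [Pi.add_apply, map_add, add_mul, Finset.sum_add_distrib] }
  have hF : ∀ y : Fin N → Mon N d → 𝓞 K, F (coordP ω y p) =
      fun i b => Ideal.Quotient.mk v.asIdeal (y i b) := by
    intro y
    funext i b
    change ∑ j, ZMod.castHom (dvd_refl p) (𝓞 K ⧸ v.asIdeal) ((ω.repr (y i b) j : ℤ) : ZMod p) *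
        Ideal.Quotient.mk v.asIdeal (ω j) = _
    conv_rhs => rw [← ω.sum_repr (y i b), map_sum]
    refine Finset.sum_congr rfl fun j _ => ?_
    rw [map_intCast, zsmul_eq_mul, map_mul, map_intCast]
  have hsurj : Function.Surjective F := by
    intro t
    choose y hy using fun i b => Ideal.Quotient.mk_surjective (t i b)
    refine ⟨coordP ω y p, ?_⟩
    rw [hF]
    funext i b
    exact hy i b
  have hlift : ∀ x : (Fin N × Mon N d) × J → ZMod p, ∃ y : Fin N → Mon N d → 𝓞 K,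
      coordP ω y p = x := by
    intro x
    refine ⟨fun i b => ∑ j, ((x ((i, b), j)).val : ℤ) • ω j, ?_⟩
    funext s
    unfold coordP
    have h1 : ω.repr (∑ j, ((x ((s.1.1, s.1.2), j)).val : ℤ) • ω j) s.2 =
        ((x ((s.1.1, s.1.2), s.2)).val : ℤ) := by
      have := ω.repr_sum_self fun j => ((x ((s.1.1, s.1.2), j)).val : ℤ)
      exact congrFun this s.2
    rw [h1, Int.cast_natCast, ZMod.natCast_val, ZMod.cast_id', id]
  have hsub : BadK ω N d p ⊆ {x | F x ∈ {c : Fin N → Mon N d → 𝓞 K ⧸ v.asIdeal | ¬ GoodSys c}} := by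
    intro x hx
    obtain ⟨y, hy⟩ := hlift x
    have h1 := hx.2 v hpv y hy
    change ¬ GoodSys (F x)
    intro h2
    apply h1
    rw [← hy, hF] at h2
    exact h2
  have h1 := Set.ncard_le_ncard hsub (Set.toFinite _)
  have h2 := card_preim F hsurj {c : Fin N → Mon N d → 𝓞 K ⧸ v.asIdeal | ¬ GoodSys c}
  have hqp : p ≤ Fintype.card (𝓞 K ⧸ v.asIdeal) := by
    rw [← Nat.card_eq_fintype_card]
    exact le_norm v p hp hpv
  have h3 := good_count (N := N) (d := d) (k := 𝓞 K ⧸ v.asIdeal) hd hN (hP.trans hqp)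
  have h4 : {c : Fin N → Mon N d → 𝓞 K ⧸ v.asIdeal | ¬ GoodSys c}.ncard =
      (Finset.univ.filter fun c : Fin N → Mon N d → 𝓞 K ⧸ v.asIdeal => ¬ GoodSys c).card := by
    rw [← Set.ncard_coe_finset]
    congr 1
    ext c
    simp
  have hcG : Fintype.card ((Fin N × Mon N d) × J → ZMod p) =
      p ^ Fintype.card ((Fin N × Mon N d) × J) := by
    rw [Fintype.card_fun, ZMod.card]
  rw [hcG] at h2
  have hH0 : (0 : ℝ) < (Fintype.card (Fin N → Mon N d → 𝓞 K ⧸ v.asIdeal) : ℝ) :=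
    Nat.cast_pos.2 Fintype.card_pos
  have h5 : ({x | F x ∈ {c : Fin N → Mon N d → 𝓞 K ⧸ v.asIdeal | ¬ GoodSys c}}.ncard : ℝ) *
      (Fintype.card (Fin N → Mon N d → 𝓞 K ⧸ v.asIdeal) : ℝ) ≤
      (3 / 4 * (p : ℝ) ^ Fintype.card ((Fin N × Mon N d) × J)) *
      (Fintype.card (Fin N → Mon N d → 𝓞 K ⧸ v.asIdeal) : ℝ) := by
    have h6 : ({x | F x ∈ {c : Fin N → Mon N d → 𝓞 K ⧸ v.asIdeal | ¬ GoodSys c}}.ncard : ℝ) *
        (Fintype.card (Fin N → Mon N d → 𝓞 K ⧸ v.asIdeal) : ℝ) =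
        ({c : Fin N → Mon N d → 𝓞 K ⧸ v.asIdeal | ¬ GoodSys c}.ncard : ℝ) *
          (p : ℝ) ^ Fintype.card ((Fin N × Mon N d) × J) := by
      exact_mod_cast h2
    rw [h6, h4]
    have h7 : RR N d (𝓞 K ⧸ v.asIdeal) =
        (Fintype.card (Fin N → Mon N d → 𝓞 K ⧸ v.asIdeal) : ℝ) := rfl
    rw [h7] at h3
    calc _ ≤ (3 / 4 * (Fintype.card (Fin N → Mon N d → 𝓞 K ⧸ v.asIdeal) : ℝ)) *
        (p : ℝ) ^ Fintype.card ((Fin N × Mon N d) × J) :=
          mul_le_mul_of_nonneg_right h3 (by positivity)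
      _ = _ := by ring
  have h6 := le_of_mul_le_mul_right h5 hH0
  calc ((BadK ω N d p).ncard : ℝ) ≤
      ({x | F x ∈ {c : Fin N → Mon N d → 𝓞 K ⧸ v.asIdeal | ¬ GoodSys c}}.ncard : ℝ) := by
        exact_mod_cast h1
    _ ≤ 3 / 4 * (p : ℝ) ^ Fintype.card ((Fin N × Mon N d) × J) := h6
    _ ≤ _ := mul_le_mul_of_nonneg_right hgd (by positivity)

omit [NumberField K] in
/-- a vector which is not bad has a good prime -/
lemma good_of {J : Type} [Fintype J] (ω : Basis J ℤ (𝓞 K)) (p : ℕ) (hP : P0 N d ≤ p)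
    (y : Fin N → Mon N d → 𝓞 K) (h : coordP ω y p ∉ BadK ω N d p) :
    ∃ v : HeightOneSpectrum (𝓞 K), (p : 𝓞 K) ∈ v.asIdeal ∧ GoodAt v y := by
  classical
  unfold BadK at h
  rw [Set.mem_ofPred_eq] at h
  push Not at h
  obtain ⟨v, hpv, y', hy', hgood⟩ := h hP
  refine ⟨v, hpv, ?_⟩
  have key : ∀ i b, Ideal.Quotient.mk v.asIdeal (y i b) = Ideal.Quotient.mk v.asIdeal (y' i b) := by
    intro i b
    rw [Ideal.Quotient.eq]
    have h1 : ∀ j, ∃ m : ℤ, ω.repr (y i b) j - ω.repr (y' i b) j = (p : ℤ) * m := by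
      intro j
      have h2 : ((ω.repr (y' i b) j : ℤ) : ZMod p) = ((ω.repr (y i b) j : ℤ) : ZMod p) :=
        congrFun hy' ((i, b), j)
      have h3 : ((ω.repr (y i b) j - ω.repr (y' i b) j : ℤ) : ZMod p) = 0 := by
        rw [Int.cast_sub, h2, sub_self]
      exact (ZMod.intCast_zmod_eq_zero_iff_dvd _ _).1 h3
    choose m hm using h1
    have h4 : y i b - y' i b = (p : 𝓞 K) * ∑ j, (m j) • ω j := by
      rw [← ω.sum_repr (y i b - y' i b), Finset.mul_sum]
      refine Finset.sum_congr rfl fun j _ => ?_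
      rw [map_sub, Finsupp.sub_apply, hm j, mul_smul]
      rw [zsmul_eq_mul, Int.cast_natCast]
    rw [h4]
    exact Ideal.mul_mem_right _ _ hpv
  unfold GoodAt
  have h6 : (fun i b => Ideal.Quotient.mk v.asIdeal (y i b)) =
      fun i b => Ideal.Quotient.mk v.asIdeal (y' i b) := by
    funext i b
    exact key i b
  rw [h6]
  exact hgood

/-- the coordinates -/
noncomputable def coordZ {J : Type} (ω : Basis J ℤ (𝓞 K)) (y : Fin N → Mon N d → 𝓞 K) :
    (Fin N × Mon N d) × J → ℤ := fun s => ω.repr (y s.1.1 s.1.2) s.2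

omit [NumberField K] in
lemma coordZ_inj {J : Type} (ω : Basis J ℤ (𝓞 K)) :
    Function.Injective (coordZ (N := N) (d := d) ω) := by
  intro y z h
  funext i b
  apply ω.repr.injective
  ext j
  exact congrFun h ((i, b), j)

/-- **The number of the exceptional systems.** -/
theorem main (N d n : ℕ) (hN : 1 ≤ N) (hd : 2 ≤ d) : ∃ C : ℝ, 1 ≤ C ∧ ∀ (K : Type) [Field K]
    [NumberField K], finrank ℚ K = n → ∀ (J : Type) [Fintype J] (ω : Basis J ℤ (𝓞 K)) (X Y : ℕ),
    2 ≤ X → X ≤ Y → ∀ u : ℝ, 0 < u → ∀ S : Set (ℤ × (Fin N → Mon N d → 𝓞 K)),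
    (∀ q ∈ S, |q.1| ≤ (X : ℤ) ∧ (∀ i b j, |ω.repr (q.2 i b) j| ≤ (Y : ℤ)) ∧
      (q.1 = 0 ∨ ∀ (p : ℕ) (v : HeightOneSpectrum (𝓞 K)), p.Prime → u * Real.log X ≤ Real.log p →
        (p : ℤ) ∣ q.1 → (p : 𝓞 K) ∈ v.asIdeal → ¬ GoodAt v q.2)) →
    (S.ncard : ℝ) ≤ C * (u + 1 / Real.log X) ^ (1 / (4 : ℝ)) *
      ((2 * X + 1) * (2 * Y + 1) ^ (n * (N * Fintype.card (Mon N d)))) := by
  obtain ⟨C, hC, h⟩ := exc_final 4 (n * (N * Fintype.card (Mon N d))) (by norm_num)
  have hP1 : 1 ≤ P0 N d := by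
    unfold P0
    omega
  have hPr : (1 : ℝ) ≤ P0 N d := by exact_mod_cast hP1
  have hL0 : 0 ≤ Real.log (P0 N d) := Real.log_nonneg hPr
  refine ⟨C * (1 + Real.log (P0 N d)) ^ (1 / (4 : ℝ)), ?_, ?_⟩
  · have : (1 : ℝ) ≤ (1 + Real.log (P0 N d)) ^ (1 / (4 : ℝ)) :=
      Real.one_le_rpow (by linarith) (by norm_num)
    nlinarith
  intro K _ _ hK J _ ω X Y hX hXY u hu S hS
  have hX2 : (2 : ℝ) ≤ X := by exact_mod_cast hX
  have hlX : 0 < Real.log X := Real.log_pos (by linarith)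
  have hJ : Fintype.card J = n := by
    rw [← hK, ← RingOfIntegers.rank, Module.finrank_eq_card_basis ω]
  have hcard : Fintype.card ((Fin N × Mon N d) × J) = n * (N * Fintype.card (Mon N d)) := by
    rw [Fintype.card_prod, Fintype.card_prod, Fintype.card_fin, hJ, mul_comm]
  set T : Set (ℤ × ((Fin N × Mon N d) × J → ℤ)) := (fun q => (q.1, coordZ ω q.2)) '' S with hT
  have hinj : Function.Injective
      (fun q : ℤ × (Fin N → Mon N d → 𝓞 K) => (q.1, coordZ ω q.2)) := by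
    intro q q' h
    exact Prod.ext (Prod.mk.inj h).1 (coordZ_inj ω (Prod.mk.inj h).2)
  have h1 : S.ncard = T.ncard := (Set.ncard_image_of_injective S hinj).symm
  rw [h1]
  set u' : ℝ := u + Real.log (P0 N d) / Real.log X with hu'
  have hu'0 : 0 < u' := by
    rw [hu']
    positivity
  have h2 := h ((Fin N × Mon N d) × J) (BadK ω N d) hcard (few_bad ω hN hd) X Y u' hX hXY hu'0 T ?_
  · refine h2.trans ?_
    refine mul_le_mul_of_nonneg_right ?_ (by positivity)
    rw [mul_assoc]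
    refine mul_le_mul_of_nonneg_left ?_ (by linarith)
    rw [← Real.mul_rpow (by linarith) (by positivity)]
    push_cast
    refine Real.rpow_le_rpow (by positivity) ?_ (by norm_num)
    rw [hu']
    have h3 : 0 < 1 / Real.log X := by positivity
    have h4 : Real.log (P0 N d) / Real.log X = Real.log (P0 N d) * (1 / Real.log X) := by ring
    rw [h4]
    nlinarith
  · rintro _ ⟨q, hq, rfl⟩
    obtain ⟨a1, a2, a3⟩ := hS q hq
    refine ⟨a1, fun i => a2 i.1.1 i.1.2 i.2, ?_⟩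
    rcases a3 with a3 | a3
    · exact Or.inl a3
    · refine Or.inr fun p hp hpu hpq => ?_
      have hp0 : (0 : ℝ) < p := by exact_mod_cast hp.pos
      have e1 : u' * Real.log X = u * Real.log X + Real.log (P0 N d) := by
        rw [hu']
        field_simp
      have hpu1 : u * Real.log X ≤ Real.log p := by linarith
      have hpP : P0 N d ≤ p := by
        have e2 : Real.log (P0 N d) ≤ Real.log p := by
          have : 0 < u * Real.log X := by positivity
          linarith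
        have e3 := (Real.log_le_log_iff (by linarith) hp0).1 e2
        exact_mod_cast e3
      by_contra hcon
      obtain ⟨v, hpv, hgood⟩ := good_of ω p hpP q.2 hcon
      exact a3 p v hp hpu1 hpq hpv hgood

end Pool.Agent.D0H55.LN
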