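import Pool.Agent.D0H55.LL.Hgt
import Pool.Agent.D0H55.LN.HtN

/-!
# The height of the system and an upper bound for the canonical height of the origin
-/

set_option autoImplicit false

namespace Pool.Agent.D0H55.LN

open NumberField Module Height Filter Topology
open Pool.Agent.D0H55.LL (size one_le_size inf_le inf_int finite_le_one finprod_le_one_real)

variable {K : Type} [Field K] {N d : ℕ}

/-- the coefficients as a vector -/
noncomputable def vec (b : ℤ) (c : Fin N → Mon N d → 𝓞 K) : Option (Fin N × Mon N d) → K :=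
  fun s => s.elim (b : K) fun t => (c t.1 t.2 : K)

/-- the sum of the absolute values of the coefficients -/
noncomputable def ssum (v : AbsoluteValue K ℝ) (p : MvPolynomial (Fin (N + 1)) K) : ℝ :=
  ∑ s ∈ p.support, v (p.coeff s)

lemma ssum_add (v : AbsoluteValue K ℝ) (p q : MvPolynomial (Fin (N + 1)) K) :
    ssum v (p + q) ≤ ssum v p + ssum v q := by
  classical
  unfold ssum
  set T := p.support ∪ q.support with hT
  have e : ∀ r : MvPolynomial (Fin (N + 1)) K, r.support ⊆ T →
      ∑ s ∈ r.support, v (r.coeff s) = ∑ s ∈ T, v (r.coeff s) := by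
    intro r hr
    refine Finset.sum_subset hr fun s _ hs => ?_
    rw [MvPolynomial.notMem_support_iff.1 hs, map_zero]
  rw [e (p + q) (MvPolynomial.support_add), e p Finset.subset_union_left,
    e q Finset.subset_union_right, ← Finset.sum_add_distrib]
  refine Finset.sum_le_sum fun s _ => ?_
  rw [MvPolynomial.coeff_add]
  exact v.add_le _ _

lemma ssum_zero (v : AbsoluteValue K ℝ) : ssum v (0 : MvPolynomial (Fin (N + 1)) K) = 0 := by
  simp [ssum]

lemma ssum_monomial (v : AbsoluteValue K ℝ) (s : Fin (N + 1) →₀ ℕ) (a : K) :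
    ssum v (MvPolynomial.monomial s a) ≤ v a := by
  classical
  unfold ssum
  by_cases ha : a = 0
  · rw [ha, map_zero, MvPolynomial.support_zero, Finset.sum_empty, map_zero]
  · rw [MvPolynomial.support_monomial, if_neg ha, Finset.sum_singleton, MvPolynomial.coeff_monomial,
      if_pos rfl]

lemma ssum_sum (v : AbsoluteValue K ℝ) {I : Type} (s : Finset I)
    (F : I → MvPolynomial (Fin (N + 1)) K) : ssum v (∑ i ∈ s, F i) ≤ ∑ i ∈ s, ssum v (F i) := by
  classical
  induction s using Finset.induction_on with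
  | empty => rw [Finset.sum_empty, Finset.sum_empty, ssum_zero]
  | insert a s ha ih =>
    rw [Finset.sum_insert ha, Finset.sum_insert ha]
    refine (ssum_add v _ _).trans ?_
    linarith

variable [NumberField K]

/-- **The height of the system.** -/
theorem height_le {J : Type} [Fintype J] (ω : Basis J ℤ (𝓞 K)) (X : ℕ) (hX : 1 ≤ X)
    (b : ℤ) (hb : b ≠ 0) (hbX : |b| ≤ (X : ℤ)) (c : Fin N → Mon N d → 𝓞 K)
    (hc : ∀ i a j, |ω.repr (c i a) j| ≤ (X : ℤ)) :
    logHeight (vec b c) ≤ finrank ℚ K * (Real.log (size ω) + Real.log X) := by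
  set w := vec b c with hw
  have hw0 : w ≠ 0 := by
    intro h
    have h1 : w none = 0 := by rw [h]; rfl
    have h2 : (b : K) = 0 := h1
    exact hb (by exact_mod_cast h2)
  have hX1 : (1 : ℝ) ≤ X := by exact_mod_cast hX
  have hs := one_le_size ω
  have h1 : ∀ (v : InfinitePlace K) (i : Option (Fin N × Mon N d)), v (w i) ≤ size ω * X := by
    intro v i
    rcases i with _ | t
    · change v (b : K) ≤ _
      rw [inf_int]
      have h2 : |(b : ℝ)| ≤ X := by exact_mod_cast hbX
      nlinarith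
    · exact inf_le ω X (c t.1 t.2) (hc t.1 t.2) v
  have h2 : ∀ (v : FinitePlace K) (i : Option (Fin N × Mon N d)), v (w i) ≤ 1 := by
    intro v i
    rcases i with _ | t
    · change v (b : K) ≤ 1
      have := finite_le_one v (b : 𝓞 K)
      simpa using this
    · exact finite_le_one v (c t.1 t.2)
  have h3 : ∏ᶠ v : FinitePlace K, ⨆ i, v (w i) ≤ 1 := by
    refine finprod_le_one_real _ (fun v => ?_) fun v => ?_
    · exact Real.iSup_nonneg fun i => apply_nonneg v _
    · exact ciSup_le fun i => h2 v i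
  have h30 : 0 ≤ ∏ᶠ v : FinitePlace K, ⨆ i, v (w i) :=
    finprod_nonneg fun v => Real.iSup_nonneg fun i => apply_nonneg v _
  have h4 : ∏ v : InfinitePlace K, (⨆ i, v (w i)) ^ v.mult ≤ (size ω * X) ^ finrank ℚ K := by
    calc ∏ v : InfinitePlace K, (⨆ i, v (w i)) ^ v.mult ≤
        ∏ v : InfinitePlace K, (size ω * X) ^ v.mult := by
          refine Finset.prod_le_prod (fun v _ => ?_) fun v _ => ?_
          · exact pow_nonneg (Real.iSup_nonneg fun i => apply_nonneg v _) _
          · exact pow_le_pow_left₀ (Real.iSup_nonneg fun i => apply_nonneg v _)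
              (ciSup_le fun i => h1 v i) _
      _ = _ := by
          rw [Finset.prod_pow_eq_pow_sum, InfinitePlace.sum_mult_eq]
  have h5 : mulHeight w ≤ (size ω * X) ^ finrank ℚ K := by
    rw [NumberField.mulHeight_eq hw0]
    calc _ ≤ (size ω * X) ^ finrank ℚ K * 1 := by
          refine mul_le_mul h4 h3 h30 (by positivity)
      _ = _ := mul_one _
  have h6 : 0 < mulHeight w := mulHeight_pos w
  rw [logHeight_eq_log_mulHeight]
  calc Real.log (mulHeight w) ≤ Real.log ((size ω * X) ^ finrank ℚ K) := Real.log_le_log h6 h5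
    _ = _ := by
      rw [Real.log_pow, Real.log_mul (by linarith) (by linarith)]

lemma bound_le {J : Type} [Fintype J] (ω : Basis J ℤ (𝓞 K)) (X : ℕ) (hX : 1 ≤ X)
    (b : ℤ) (hbX : |b| ≤ (X : ℤ)) (c : Fin N → Mon N d → 𝓞 K)
    (hc : ∀ i a j, |ω.repr (c i a) j| ≤ (X : ℤ)) :
    mulHeightBound (frm (b : K) fun i a => (c i a : K)) ≤
      (((Fintype.card (Mon N d) : ℝ) + 1) * (size ω * X)) ^ finrank ℚ K := by
  classical
  have hX1 : (1 : ℝ) ≤ X := by exact_mod_cast hX
  have hs := one_le_size ω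
  have hA1 : 1 ≤ size ω * X := by nlinarith
  have hd0 : (0 : ℝ) ≤ Fintype.card (Mon N d) := Nat.cast_nonneg _
  set A : ℝ := ((Fintype.card (Mon N d) : ℝ) + 1) * (size ω * X) with hA
  have hA0 : 0 < A := by
    rw [hA]
    positivity
  have hfr0 : frm (b : K) (fun i a => (c i a : K)) 0 =
      MvPolynomial.monomial (Finsupp.single 0 d) (b : K) := rfl
  have hfrs : ∀ i : Fin N, frm (b : K) (fun i a => (c i a : K)) i.succ =
      ∑ a : Mon N d, MvPolynomial.monomial (hexp a) (c i a : K) := fun i => rfl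
  have h1 : ∀ (v : InfinitePlace K) (j : Fin (N + 1)),
      ssum v.1 (frm (b : K) (fun i a => (c i a : K)) j) ≤ A := by
    intro v j
    refine Fin.cases ?_ (fun i => ?_) j
    · rw [hfr0]
      refine (ssum_monomial v.1 _ _).trans ?_
      have h2 : v (b : K) = |(b : ℝ)| := inf_int v b
      have h3 : |(b : ℝ)| ≤ X := by exact_mod_cast hbX
      have h4 : v.1 (b : K) = v (b : K) := rfl
      rw [h4, h2, hA]
      nlinarith
    · rw [hfrs]
      refine (ssum_sum v.1 _ _).trans ?_
      calc ∑ a : Mon N d, ssum v.1 (MvPolynomial.monomial (hexp a) (c i a : K)) ≤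
          ∑ _a : Mon N d, (size ω * X) := by
            refine Finset.sum_le_sum fun a _ => (ssum_monomial v.1 _ _).trans ?_
            exact inf_le ω X (c i a) (hc i a) v
        _ ≤ A := by
            rw [Finset.sum_const, Finset.card_univ, nsmul_eq_mul, hA]
            nlinarith
  have h2 : ∀ (v : FinitePlace K) (j : Fin (N + 1)) (s : Fin (N + 1) →₀ ℕ),
      v ((frm (b : K) (fun i a => (c i a : K)) j).coeff s) ≤ 1 := by
    intro v j s
    refine Fin.cases ?_ (fun i => ?_) j
    · rw [hfr0, MvPolynomial.coeff_monomial]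
      split_ifs
      · have := finite_le_one v (b : 𝓞 K)
        simpa using this
      · rw [map_zero]
        exact zero_le_one
    · rw [hfrs]
      have h3 : (∑ a : Mon N d, MvPolynomial.monomial (hexp a) (c i a : K)).coeff s =
          ((∑ a : Mon N d, if hexp a = s then c i a else 0 : 𝓞 K) : K) := by
        change _ = algebraMap (𝓞 K) K _
        rw [MvPolynomial.coeff_sum, map_sum]
        refine Finset.sum_congr rfl fun a _ => ?_
        rw [MvPolynomial.coeff_monomial]
        split_ifs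
        · rfl
        · rw [map_zero]
      rw [h3]
      exact finite_le_one v _
  rw [mulHeightBound_eq, prod_archAbsVal_eq, prod_nonarchAbsVal_eq (fun v : AbsoluteValue K ℝ =>
    ⨆ j, max (⨆ s : (frm (b : K) (fun i a => (c i a : K)) j).support,
      v (MvPolynomial.coeff s (frm (b : K) (fun i a => (c i a : K)) j))) 1)]
  have h4 : ∏ᶠ v : FinitePlace K, ⨆ j, max (⨆ s : (frm (b : K) (fun i a => (c i a : K)) j).support,
      v.val (MvPolynomial.coeff s (frm (b : K) (fun i a => (c i a : K)) j))) 1 ≤ 1 := by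
    refine finprod_le_one_real _ (fun v => ?_) fun v => ?_
    · exact Real.iSup_nonneg fun j => zero_le_one.trans (le_max_right _ _)
    · refine ciSup_le fun j => max_le ?_ le_rfl
      exact Real.iSup_le (fun s => h2 v j s) zero_le_one
  have h40 : 0 ≤ ∏ᶠ v : FinitePlace K, ⨆ j, max (⨆ s : (frm (b : K) (fun i a => (c i a : K)) j).support,
      v.val (MvPolynomial.coeff s (frm (b : K) (fun i a => (c i a : K)) j))) 1 :=
    finprod_nonneg fun v => Real.iSup_nonneg fun j => zero_le_one.trans (le_max_right _ _)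
  have h5 : ∏ v : InfinitePlace K, (⨆ j, (AddMonoidAlgebra.coeff
      (frm (b : K) (fun i a => (c i a : K)) j)).sum (fun _ c ↦ v.val c)) ^ v.mult ≤
      A ^ finrank ℚ K := by
    calc _ ≤ ∏ v : InfinitePlace K, A ^ v.mult := by
          refine Finset.prod_le_prod (fun v _ => ?_) fun v _ => ?_
          · refine pow_nonneg (Real.iSup_nonneg fun j => ?_) _
            exact Finset.sum_nonneg fun s _ => v.1.nonneg _
          · refine pow_le_pow_left₀ (Real.iSup_nonneg fun j => ?_) (ciSup_le fun j => h1 v j) _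
            exact Finset.sum_nonneg fun s _ => v.1.nonneg _
      _ = _ := by
          rw [Finset.prod_pow_eq_pow_sum, InfinitePlace.sum_mult_eq]
  calc _ ≤ A ^ finrank ℚ K * 1 := mul_le_mul h5 h4 h40 (by positivity)
    _ = _ := mul_one _

/-- one step -/
theorem step_le {J : Type} [Fintype J] (ω : Basis J ℤ (𝓞 K)) (X : ℕ) (hX : 1 ≤ X)
    (b : ℤ) (hb : b ≠ 0) (hbX : |b| ≤ (X : ℤ)) (c : Fin N → Mon N d → 𝓞 K)
    (hc : ∀ i a j, |ω.repr (c i a) j| ≤ (X : ℤ)) (y : Fin N → K) :
    logHeight (Fin.cons 1 (pmap K (b : 𝓞 K) c y) : Fin (N + 1) → K) ≤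
      finrank ℚ K * Real.log (((Fintype.card (Mon N d) : ℝ) + 1) * (size ω * X)) +
        d * logHeight (Fin.cons 1 y : Fin (N + 1) → K) := by
  have hX1 : (1 : ℝ) ≤ X := by exact_mod_cast hX
  have hs := one_le_size ω
  have hA1 : 1 ≤ size ω * X := by nlinarith
  have hd0 : (0 : ℝ) ≤ Fintype.card (Mon N d) := Nat.cast_nonneg _
  have hb0 : (b : K) ≠ 0 := by exact_mod_cast hb
  have h1 := logHeight_eval_le (frm_hom (b : K) fun i a => (c i a : K))
    (Fin.cons 1 y : Fin (N + 1) → K)
  rw [frm_eval _ hb0, logHeight_smul_eq_logHeight _ hb0] at h1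
  have e1 : (fun i => (b : K)⁻¹ * hev (fun a => (c i a : K)) 1 y) = pmap K (b : 𝓞 K) c y := by
    funext i
    unfold pmap
    have : algebraMap (𝓞 K) K (b : 𝓞 K) = (b : K) := by simp
    rw [this]
  rw [e1] at h1
  refine h1.trans ?_
  have h3 := bound_le ω X hX b hbX c hc
  have h4 : (1 : ℝ) ≤ (((Fintype.card (Mon N d) : ℝ) + 1) * (size ω * X)) ^ finrank ℚ K := by
    refine one_le_pow₀ ?_
    nlinarith
  have h5 : Real.log (max (mulHeightBound (frm (b : K) fun i a => (c i a : K))) 1) ≤
      finrank ℚ K * Real.log (((Fintype.card (Mon N d) : ℝ) + 1) * (size ω * X)) := by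
    rw [← Real.log_pow]
    refine Real.log_le_log (lt_of_lt_of_le one_pos (le_max_right _ _)) (max_le h3 h4)
  linarith

/-- **The canonical height of the origin.** -/
theorem zero_le' {J : Type} [Fintype J] (ω : Basis J ℤ (𝓞 K)) (hd : 2 ≤ d) (X : ℕ)
    (hX : 1 ≤ X) (b : ℤ) (hb : b ≠ 0) (hbX : |b| ≤ (X : ℤ)) (c : Fin N → Mon N d → 𝓞 K)
    (hc : ∀ i a j, |ω.repr (c i a) j| ≤ (X : ℤ)) (r : ℝ)
    (hr : Tendsto (fun k : ℕ => logHeight (Fin.cons 1 ((pmap K (b : 𝓞 K) c)^[k] 0) :
      Fin (N + 1) → K) / ((finrank ℚ K : ℝ) * (d : ℝ) ^ k)) atTop (𝓝 r)) :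
    r ≤ (Real.log X + Real.log (((Fintype.card (Mon N d) : ℝ) + 1) * size ω)) / (d - 1) := by
  have hX1 : (1 : ℝ) ≤ X := by exact_mod_cast hX
  have hs := one_le_size ω
  have hd2 : (2 : ℝ) ≤ d := by exact_mod_cast hd
  have hn : (0 : ℝ) < finrank ℚ K := Nat.cast_pos.2 finrank_pos
  have hM0 : (0 : ℝ) ≤ Fintype.card (Mon N d) := Nat.cast_nonneg _
  set A : ℝ := Real.log (((Fintype.card (Mon N d) : ℝ) + 1) * (size ω * X)) with hA
  have hA0 : 0 ≤ A := by
    rw [hA]
    refine Real.log_nonneg ?_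
    have hA1 : 1 ≤ size ω * X := by nlinarith
    nlinarith
  have hz : logHeight (Fin.cons 1 (0 : Fin N → K) : Fin (N + 1) → K) = 0 := by
    have e : (Fin.cons 1 (0 : Fin N → K) : Fin (N + 1) → K) =
        (fun i => if i = 0 then (1 : K) else 0) := by
      funext i
      refine Fin.cases ?_ (fun i => ?_) i
      · rw [Fin.cons_zero, if_pos rfl]
      · rw [Fin.cons_succ, if_neg (Fin.succ_ne_zero i)]
        rfl
    have hne : (Fin.cons 1 (0 : Fin N → K) : Fin (N + 1) → K) ≠ 0 := by
      intro h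
      have := congrFun h 0
      rw [Fin.cons_zero] at this
      exact one_ne_zero this
    rw [logHeight_eq_log_mulHeight, NumberField.mulHeight_eq hne]
    have hval : ∀ f : K → ℝ, f 0 = 0 → f 1 = 1 →
        ⨆ i, f ((Fin.cons 1 (0 : Fin N → K) : Fin (N + 1) → K) i) = 1 := by
      intro f hf0 hf1
      refine le_antisymm (ciSup_le fun i => ?_) ?_
      · refine Fin.cases ?_ (fun i => ?_) i
        · rw [Fin.cons_zero, hf1]
        · rw [Fin.cons_succ, Pi.zero_apply, hf0]
          exact zero_le_one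
      · refine le_ciSup_of_le (Set.finite_range _).bddAbove 0 ?_
        rw [Fin.cons_zero, hf1]
    have h1 : ∀ v : InfinitePlace K,
        ⨆ i, v ((Fin.cons 1 (0 : Fin N → K) : Fin (N + 1) → K) i) = 1 :=
      fun v => hval v (map_zero v) (map_one v)
    have h2 : ∀ v : FinitePlace K,
        ⨆ i, v ((Fin.cons 1 (0 : Fin N → K) : Fin (N + 1) → K) i) = 1 :=
      fun v => hval v (map_zero v) (map_one v)
    simp only [h1, h2, one_pow, Finset.prod_const_one, finprod_one, mul_one, Real.log_one]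
  have key : ∀ k : ℕ, logHeight (Fin.cons 1 ((pmap K (b : 𝓞 K) c)^[k] 0) : Fin (N + 1) → K) ≤
      finrank ℚ K * A * ((d : ℝ) ^ k - 1) / (d - 1) := by
    intro k
    induction k with
    | zero =>
      rw [Function.iterate_zero, id, hz]
      simp
    | succ k ih =>
      rw [Function.iterate_succ_apply']
      have hst := step_le ω X hX b hb hbX c hc ((pmap K (b : 𝓞 K) c)^[k] 0)
      rw [← hA] at hst
      refine hst.trans ?_
      have h1 : (0 : ℝ) < (d : ℝ) - 1 := by linarith
      have h2 : (d : ℝ) * logHeight (Fin.cons 1 ((pmap K (b : 𝓞 K) c)^[k] 0) : Fin (N + 1) → K) ≤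
          d * (finrank ℚ K * A * ((d : ℝ) ^ k - 1) / (d - 1)) :=
        mul_le_mul_of_nonneg_left ih (by linarith)
      refine (add_le_add le_rfl h2).trans (le_of_eq ?_)
      rw [pow_succ]
      field_simp
      ring
  have hlim : ∀ k : ℕ, logHeight (Fin.cons 1 ((pmap K (b : 𝓞 K) c)^[k] 0) : Fin (N + 1) → K) /
        ((finrank ℚ K : ℝ) * (d : ℝ) ^ k) ≤ A / (d - 1) := by
    intro k
    have hdk : (0 : ℝ) < (d : ℝ) ^ k := by positivity
    have h1 : (0 : ℝ) < (d : ℝ) - 1 := by linarith
    rw [div_le_div_iff₀ (by positivity) h1]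
    have h2 := key k
    rw [le_div_iff₀ h1] at h2
    refine h2.trans ?_
    have h3 : 0 ≤ (finrank ℚ K : ℝ) * A := by positivity
    nlinarith
  have h2 := le_of_tendsto' hr hlim
  refine h2.trans (le_of_eq ?_)
  congr 1
  rw [hA, show ((Fintype.card (Mon N d) : ℝ) + 1) * (size ω * X) =
    X * (((Fintype.card (Mon N d) : ℝ) + 1) * size ω) by ring,
    Real.log_mul (by linarith) (by positivity)]

end Pool.Agent.D0H55.LN
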