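import Pool.Agent.D0H55.LN.Nz
import Pool.Agent.D0H55.LL.Loc

/-!
# A quarter of the systems is good
-/

set_option autoImplicit false

namespace Pool.Agent.D0H55.LN

open Finset Matrix

variable {N d : ℕ} {k : Type} [Field k]

/-- the functions given by polynomials of degree at most `n` -/
def PF (N : ℕ) (k : Type) [Field k] (n : ℕ) : Submodule k ((Fin N → k) → k) :=
  Submodule.span k {φ | ∃ a : Fin N → ℕ, ∑ i, a i ≤ n ∧ φ = fun x => mon x a}

lemma pf_mono {n m : ℕ} (h : n ≤ m) : PF N k n ≤ PF N k m := by
  refine Submodule.span_mono ?_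
  rintro φ ⟨a, h1, h2⟩
  exact ⟨a, h1.trans h, h2⟩

lemma pf_mul (n : ℕ) (j : Fin N) (α : k) (φ : (Fin N → k) → k) (hφ : φ ∈ PF N k n) :
    (fun x => (x j - α) * φ x) ∈ PF N k (n + 1) := by
  refine Submodule.span_induction (p := fun φ _ => (fun x => (x j - α) * φ x) ∈ PF N k (n + 1))
    ?_ ?_ ?_ ?_ hφ
  · rintro φ ⟨a, h1, rfl⟩
    have e : (fun x : Fin N → k => (x j - α) * mon x a) =
        (fun x => mon x (a + Pi.single j 1)) - α • (fun x => mon x a) := by
      funext x
      rw [Pi.sub_apply, Pi.smul_apply, mon_add, mon_single, pow_one, smul_eq_mul]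
      ring
    rw [e]
    refine Submodule.sub_mem _ (Submodule.subset_span ⟨_, ?_, rfl⟩)
      (Submodule.smul_mem _ _ (Submodule.subset_span ⟨a, h1.trans (Nat.le_succ n), rfl⟩))
    simp only [Pi.add_apply, sum_add_distrib]
    have h2 : ∑ i, (Pi.single j 1 : Fin N → ℕ) i = 1 := by
      rw [sum_eq_single j]
      · rw [Pi.single_eq_same]
      · intro i _ hi
        rw [Pi.single_eq_of_ne hi]
      · intro h
        exact absurd (mem_univ _) h
    omega
  · have e : (fun x : Fin N → k => (x j - α) * (0 : (Fin N → k) → k) x) = 0 := by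
      funext x
      simp
    rw [e]
    exact Submodule.zero_mem _
  · intro φ ψ _ _ h1 h2
    have e : (fun x : Fin N → k => (x j - α) * (φ + ψ) x) =
        (fun x => (x j - α) * φ x) + fun x => (x j - α) * ψ x := by
      funext x
      rw [Pi.add_apply, Pi.add_apply, mul_add]
    rw [e]
    exact Submodule.add_mem _ h1 h2
  · intro s φ _ h1
    have e : (fun x : Fin N → k => (x j - α) * (s • φ) x) = s • fun x => (x j - α) * φ x := by
      funext x
      rw [Pi.smul_apply, Pi.smul_apply, smul_eq_mul, smul_eq_mul]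
      ring
    rw [e]
    exact Submodule.smul_mem _ _ h1

lemma pf_one : (fun _ => 1 : (Fin N → k) → k) ∈ PF N k 0 :=
  Submodule.subset_span ⟨0, by simp, by funext x; rw [mon_zero]⟩

lemma pf_sep (T : Finset (Fin N → k)) (x : Fin N → k) (hx : x ∉ T) :
    ∃ φ ∈ PF N k T.card, φ x ≠ 0 ∧ ∀ y ∈ T, φ y = 0 := by
  classical
  induction T using Finset.induction_on with
  | empty => exact ⟨_, pf_one, one_ne_zero, fun y hy => absurd hy (notMem_empty y)⟩
  | insert y T hy ih =>
    obtain ⟨φ, h1, h2, h3⟩ := ih fun h => hx (mem_insert_of_mem h)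
    have hne : x ≠ y := fun h => hx (h ▸ mem_insert_self y T)
    obtain ⟨j, hj⟩ := Function.ne_iff.1 hne
    refine ⟨fun x => (x j - y j) * φ x, ?_, mul_ne_zero (sub_ne_zero.2 hj) h2, ?_⟩
    · rw [card_insert_of_notMem hy]
      exact pf_mul _ _ _ _ h1
    · intro z hz
      rcases mem_insert.1 hz with rfl | hz
      · change (z j - z j) * φ z = 0
        rw [sub_self, zero_mul]
      · change (z j - y j) * φ z = 0
        rw [h3 z hz, mul_zero]

lemma hev_smul' (s : k) (c : Mon N d → k) (x : Fin N → k) :
    hev (s • c) 1 x = s * hev c 1 x := by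
  rw [hev_one, hev_one, mul_sum]
  refine sum_congr rfl fun a _ => ?_
  rw [Pi.smul_apply, smul_eq_mul, mul_assoc]

lemma pf_rep (φ : (Fin N → k) → k) (hφ : φ ∈ PF N k d) :
    ∃ c : Mon N d → k, ∀ x, hev c 1 x = φ x := by
  classical
  refine Submodule.span_induction (p := fun φ _ => ∃ c : Mon N d → k, ∀ x, hev c 1 x = φ x)
    ?_ ?_ ?_ ?_ hφ
  · rintro φ ⟨a, h1, rfl⟩
    refine ⟨Pi.single ⟨a, h1⟩ 1, fun x => ?_⟩
    rw [hev_one, sum_eq_single (⟨a, h1⟩ : Mon N d)]
    · rw [Pi.single_eq_same, one_mul]
    · intro b _ hb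
      rw [Pi.single_eq_of_ne hb, zero_mul]
    · intro h
      exact absurd (mem_univ _) h
  · refine ⟨0, fun x => ?_⟩
    rw [hev_one]
    simp
  · rintro φ ψ _ _ ⟨c, hc⟩ ⟨c', hc'⟩
    exact ⟨c + c', fun x => by rw [hev_add, hc, hc', Pi.add_apply]⟩
  · rintro s φ _ ⟨c, hc⟩
    exact ⟨s • c, fun x => by rw [hev_smul', hc, Pi.smul_apply, smul_eq_mul]⟩

lemma hev_sum {ι : Type} (s : Finset ι) (c : ι → Mon N d → k) (x : Fin N → k) :
    hev (∑ l ∈ s, c l) 1 x = ∑ l ∈ s, hev (c l) 1 x := by
  classical
  induction s using Finset.induction_on with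
  | empty =>
    rw [sum_empty, sum_empty, hev_one]
    simp
  | insert a s ha ih => rw [sum_insert ha, sum_insert ha, hev_add, ih]

/-- interpolation -/
lemma interp (T : Finset (Fin N → k)) (hT : T.card ≤ d + 1) (y : T → k) :
    ∃ c : Mon N d → k, ∀ x : T, hev c 1 x.1 = y x := by
  classical
  have h1 : ∀ x : T, ∃ c : Mon N d → k, hev c 1 x.1 = 1 ∧ ∀ z : T, z ≠ x → hev c 1 z.1 = 0 := by
    intro x
    obtain ⟨φ, g1, g2, g3⟩ := pf_sep (T.erase x.1) x.1 (by simp)
    have g4 : φ ∈ PF N k d := by
      refine pf_mono ?_ g1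
      rw [card_erase_of_mem x.2]
      omega
    obtain ⟨c, hc⟩ := pf_rep φ g4
    refine ⟨(φ x.1)⁻¹ • c, ?_, ?_⟩
    · rw [hev_smul', hc, inv_mul_cancel₀ g2]
    · intro z hz
      rw [hev_smul', hc, g3 z.1 (mem_erase.2 ⟨fun h => hz (Subtype.ext h), z.2⟩), mul_zero]
  choose c hc1 hc2 using h1
  refine ⟨∑ x : T, y x • c x, fun x => ?_⟩
  rw [hev_sum, sum_eq_single x]
  · rw [hev_smul', hc1, mul_one]
  · intro z _ hz
    rw [hev_smul', hc2 z x (Ne.symm hz), mul_zero]
  · intro h
    exact absurd (mem_univ _) h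

variable [Fintype k] [DecidableEq k]

/-- the system vanishes at `x` -/
def Zer (c : Fin N → Mon N d → k) (x : Fin N → k) : Prop := ∀ i, hev (c i) 1 x = 0

open Classical in
lemma count_zer (T : Finset (Fin N → k)) (hT : T.card ≤ d + 1) :
    (univ.filter fun c : Fin N → Mon N d → k => ∀ x ∈ T, Zer c x).card *
      (Fintype.card k ^ N) ^ T.card = Fintype.card (Fin N → Mon N d → k) := by
  let F : (Fin N → Mon N d → k) →+ (T → Fin N → k) :=
    { toFun := fun c x i => hev (c i) 1 x.1
      map_zero' := by
        funext x i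
        change hev (0 : Mon N d → k) 1 x.1 = 0
        rw [hev_one]
        simp
      map_add' := by
        intro c c'
        funext x i
        exact hev_add _ _ _ _ }
  have hF : Function.Surjective F := by
    intro y
    choose c hc using fun i => interp T hT fun x => y x i
    exact ⟨c, by funext x i; exact hc i x⟩
  have h1 := Pool.Agent.D0H55.LL.fiber_card F hF 0
  have h2 : Fintype.card (T → Fin N → k) = (Fintype.card k ^ N) ^ T.card := by
    rw [Fintype.card_fun, Fintype.card_fun, Fintype.card_fin, Fintype.card_coe]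
  rw [h2] at h1
  rw [← h1]
  congr 2
  ext c
  rw [mem_filter, mem_filter]
  refine and_congr_right fun _ => ?_
  constructor
  · intro h
    funext x i
    exact h x.1 x.2 i
  · intro h x hx i
    exact congrFun (congrFun h ⟨x, hx⟩) i

open Classical in
/-- the indicator -/
noncomputable def ind (c : Fin N → Mon N d → k) (x : Fin N → k) : ℝ := if Zer c x then 1 else 0

/-- the number of systems as a real number -/
noncomputable def RR (N d : ℕ) (k : Type) [Fintype k] : ℝ := Fintype.card (Fin N → Mon N d → k)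

open Classical in
lemma sum_ind (T : Finset (Fin N → k)) (hT : T.card ≤ d + 1) :
    ∑ c : Fin N → Mon N d → k, (if ∀ x ∈ T, Zer c x then (1 : ℝ) else 0) =
      RR N d k / ((Fintype.card k : ℝ) ^ N) ^ T.card := by
  have h1 := count_zer (d := d) T hT
  have hq : (0 : ℝ) < Fintype.card k := Nat.cast_pos.2 Fintype.card_pos
  rw [eq_div_iff (by positivity), sum_boole]
  unfold RR
  rw [← h1]
  push_cast
  ring

lemma prod2 (c : Fin N → Mon N d → k) (x y : Fin N → k) :
    ind c x * ind c y = by
      classical exact (if ∀ z ∈ ({x, y} : Finset (Fin N → k)), Zer c z then (1 : ℝ) else 0) := by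
  classical
  unfold ind
  by_cases h1 : Zer c x
  · by_cases h2 : Zer c y
    · rw [if_pos h1, if_pos h2, if_pos (by simp [h1, h2]), mul_one]
    · have h : ¬ ∀ z ∈ ({x, y} : Finset (Fin N → k)), Zer c z := fun h => h2 (h y (by simp))
      rw [if_pos h1, if_neg h2, if_neg h, mul_zero]
  · have h : ¬ ∀ z ∈ ({x, y} : Finset (Fin N → k)), Zer c z := fun h => h1 (h x (by simp))
    rw [if_neg h1, if_neg h, zero_mul]

lemma prod3 (c : Fin N → Mon N d → k) (x y z : Fin N → k) :
    ind c x * ind c y * ind c z = by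
      classical exact (if ∀ w ∈ ({x, y, z} : Finset (Fin N → k)), Zer c w then (1 : ℝ) else 0) := by
  classical
  unfold ind
  by_cases h1 : Zer c x
  · by_cases h2 : Zer c y
    · by_cases h3 : Zer c z
      · rw [if_pos h1, if_pos h2, if_pos h3, if_pos (by simp [h1, h2, h3])]
        ring
      · have h : ¬ ∀ w ∈ ({x, y, z} : Finset (Fin N → k)), Zer c w := fun h => h3 (h z (by simp))
        rw [if_pos h1, if_pos h2, if_neg h3, if_neg h]
        ring
    · have h : ¬ ∀ w ∈ ({x, y, z} : Finset (Fin N → k)), Zer c w := fun h => h2 (h y (by simp))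
      rw [if_pos h1, if_neg h2, if_neg h]
      ring
  · have h : ¬ ∀ w ∈ ({x, y, z} : Finset (Fin N → k)), Zer c w := fun h => h1 (h x (by simp))
    rw [if_neg h1, if_neg h]
    ring

lemma bonf (n : ℕ) : (1 : ℝ) - 11 / 6 * n + n ^ 2 - n ^ 3 / 6 ≤ if n = 0 then 1 else 0 := by
  rcases Nat.eq_zero_or_pos n with h | h
  · subst h
    simp
  · rw [if_neg h.ne']
    have h1 : (0 : ℝ) ≤ ((n : ℝ) - 1) * (n - 2) * (n - 3) := by
      have h2 : n = 1 ∨ n = 2 ∨ 3 ≤ n := by omega
      rcases h2 with h2 | h2 | h2
      · rw [h2]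
        norm_num
      · rw [h2]
        norm_num
      · have h3 : (3 : ℝ) ≤ n := by exact_mod_cast h2
        have h4 : 0 ≤ (n : ℝ) - 1 := by linarith
        have h5 : 0 ≤ (n : ℝ) - 2 := by linarith
        have h6 : 0 ≤ (n : ℝ) - 3 := by linarith
        positivity
    nlinarith

open Classical in
/-- **A third of the systems has no zero.** -/
theorem zero_free (hd : 2 ≤ d) :
    RR N d k * (1 / 3 - 1 / (Fintype.card k : ℝ) ^ N) ≤
      ((univ.filter fun c : Fin N → Mon N d → k => ∀ x, ¬ Zer c x).card : ℝ) := by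
  set R := RR N d k with hR
  set Q : ℝ := (Fintype.card k : ℝ) ^ N with hQ
  have hq : (0 : ℝ) < Fintype.card k := Nat.cast_pos.2 Fintype.card_pos
  have hQ0 : 0 < Q := by
    rw [hQ]
    positivity
  have hR0 : 0 ≤ R := by
    rw [hR]
    exact Nat.cast_nonneg _
  have hcardE : (Fintype.card (Fin N → k) : ℝ) = Q := by
    rw [Fintype.card_fun, Fintype.card_fin, hQ]
    push_cast
    rfl
  set X : (Fin N → Mon N d → k) → ℝ := fun c => ∑ x, ind c x with hX
  have e1 : ∑ c, X c = R := by
    rw [hX, sum_comm]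
    have h1 : ∀ x : Fin N → k, ∑ c : Fin N → Mon N d → k, ind c x = R / Q := by
      intro x
      have h2 := sum_ind (d := d) ({x} : Finset (Fin N → k)) (by rw [card_singleton]; omega)
      rw [card_singleton, pow_one] at h2
      rw [← h2]
      refine sum_congr rfl fun c _ => ?_
      unfold ind
      by_cases h : Zer c x
      · rw [if_pos h, if_pos (by simpa using h)]
      · rw [if_neg h, if_neg (by simpa using h)]
    rw [sum_congr rfl fun x _ => h1 x, sum_const, card_univ, nsmul_eq_mul, hcardE]
    field_simp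
  have e2 : ∑ c, X c ^ 2 = R * (2 - 1 / Q) := by
    have h1 : ∀ c, X c ^ 2 = ∑ x, ∑ y, ind c x * ind c y := by
      intro c
      rw [hX, sq, sum_mul_sum]
    rw [sum_congr rfl fun c _ => h1 c, sum_comm]
    have h2 : ∀ x : Fin N → k, ∑ c : Fin N → Mon N d → k, ∑ y, ind c x * ind c y =
        R / Q + (Q - 1) * (R / Q ^ 2) := by
      intro x
      rw [sum_comm]
      have h3 : ∀ y : Fin N → k, ∑ c : Fin N → Mon N d → k, ind c x * ind c y =
          if y = x then R / Q else R / Q ^ 2 := by
        intro y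
        have h4 := sum_ind (d := d) ({x, y} : Finset (Fin N → k)) (by
          have := card_le_two (a := x) (b := y)
          omega)
        rw [sum_congr rfl fun c _ => prod2 c x y]
        by_cases h : y = x
        · subst h
          rw [if_pos rfl]
          rw [pair_eq_singleton, card_singleton, pow_one] at h4
          rw [pair_eq_singleton]
          exact h4
        · rw [if_neg h]
          rw [card_pair (Ne.symm h)] at h4
          exact h4
      rw [sum_congr rfl fun y _ => h3 y, ← add_sum_erase univ _ (mem_univ x), if_pos rfl]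
      have h5 : ∑ y ∈ univ.erase x, (if y = x then R / Q else R / Q ^ 2) =
          ∑ _y ∈ univ.erase x, R / Q ^ 2 := by
        refine sum_congr rfl fun y hy => ?_
        rw [if_neg (ne_of_mem_erase hy)]
      rw [h5, sum_const, card_erase_of_mem (mem_univ x), card_univ, nsmul_eq_mul,
        Nat.cast_sub Fintype.card_pos, hcardE, Nat.cast_one]
    rw [sum_congr rfl fun x _ => h2 x, sum_const, card_univ, nsmul_eq_mul, hcardE]
    field_simp
    ring
  have e3 : ∑ c, X c ^ 3 ≤ 5 * R := by
    have h1 : ∀ c, X c ^ 3 = ∑ x, ∑ y, ∑ z, ind c x * ind c y * ind c z := by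
      intro c
      rw [hX, pow_succ, sq, sum_mul_sum, sum_mul]
      refine sum_congr rfl fun x _ => ?_
      rw [sum_mul]
      refine sum_congr rfl fun y _ => ?_
      rw [mul_sum]
    have h2 : ∀ x y z : Fin N → k, ∑ c : Fin N → Mon N d → k, ind c x * ind c y * ind c z ≤
        (if x = y then (if y = z then R / Q else 0) else 0) + (if x = y then R / Q ^ 2 else 0) +
          (if y = z then R / Q ^ 2 else 0) + (if x = z then R / Q ^ 2 else 0) + R / Q ^ 3 := by
      intro x y z
      have h4 := sum_ind (d := d) ({x, y, z} : Finset (Fin N → k)) (by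
        have := card_le_three (a := x) (b := y) (c := z)
        omega)
      rw [sum_congr rfl fun c _ => prod3 c x y z, h4, ← hR, ← hQ]
      have p2 : 0 ≤ R / Q ^ 2 := by positivity
      have p3 : 0 ≤ R / Q ^ 3 := by positivity
      have p1 : 0 ≤ R / Q := by positivity
      by_cases hxy : x = y
      · subst hxy
        by_cases hyz : x = z
        · subst hyz
          simp only [if_true]
          rw [show ({x, x, x} : Finset (Fin N → k)) = {x} by simp, card_singleton, pow_one]
          linarith
        · simp only [if_true, if_neg hyz]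
          rw [show ({x, x, z} : Finset (Fin N → k)) = {x, z} by simp, card_pair hyz]
          linarith
      · by_cases hyz : y = z
        · subst hyz
          simp only [if_true, if_neg hxy]
          rw [show ({x, y, y} : Finset (Fin N → k)) = {x, y} by simp, card_pair hxy]
          linarith
        · by_cases hxz : x = z
          · subst hxz
            simp only [if_true, if_neg hxy, if_neg hyz]
            rw [show ({x, y, x} : Finset (Fin N → k)) = {x, y} by
              ext w; simp only [mem_insert, mem_singleton]; tauto, card_pair hxy]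
            linarith
          · simp only [if_neg hxy, if_neg hyz, if_neg hxz]
            rw [card_eq_three.2 ⟨x, y, z, hxy, hxz, hyz, rfl⟩]
            linarith
    have h3 : ∑ c, X c ^ 3 = ∑ x : Fin N → k, ∑ y : Fin N → k, ∑ z : Fin N → k,
        ∑ c : Fin N → Mon N d → k, ind c x * ind c y * ind c z := by
      rw [sum_congr rfl fun c _ => h1 c, sum_comm]
      refine sum_congr rfl fun x _ => ?_
      rw [sum_comm]
      refine sum_congr rfl fun y _ => ?_
      rw [sum_comm]
    rw [h3]
    refine (sum_le_sum fun x _ => sum_le_sum fun y _ => sum_le_sum fun z _ => h2 x y z).trans ?_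
    simp only [sum_add_distrib, sum_const, card_univ, nsmul_eq_mul, hcardE, sum_ite_eq,
      mem_univ, if_true]
    have g1 : ∀ x : Fin N → k, ∑ y : Fin N → k, ∑ z : Fin N → k,
        (if x = y then (if y = z then R / Q else 0) else 0) = R / Q := by
      intro x
      rw [sum_eq_single x]
      · simp
      · intro y _ hy
        simp [Ne.symm hy]
      · intro h
        exact absurd (mem_univ _) h
    have g2 : ∀ x : Fin N → k, ∑ y : Fin N → k, Q * (if x = y then R / Q ^ 2 else 0) =
        Q * (R / Q ^ 2) := by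
      intro x
      rw [← mul_sum]
      simp
    simp only [g1, g2, sum_const, card_univ, nsmul_eq_mul, hcardE]
    apply le_of_eq
    field_simp
    ring
  -- the number of zeros
  have hXn : ∀ c : Fin N → Mon N d → k, X c = ((univ.filter fun x => Zer c x).card : ℝ) := by
    intro c
    rw [hX]
    change ∑ x, ind c x = _
    unfold ind
    rw [sum_boole]
  have h5 : ∀ c : Fin N → Mon N d → k, 1 - 11 / 6 * X c + X c ^ 2 - X c ^ 3 / 6 ≤
      if ∀ x, ¬ Zer c x then 1 else 0 := by
    intro c
    rw [hXn c]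
    refine (bonf _).trans (le_of_eq ?_)
    by_cases h : ∀ x, ¬ Zer c x
    · rw [if_pos h, if_pos]
      rw [card_eq_zero, filter_eq_empty_iff]
      exact fun x _ => h x
    · rw [if_neg h, if_neg]
      rw [card_eq_zero, filter_eq_empty_iff]
      intro h'
      exact h fun x => h' (mem_univ x)
  have h6 := sum_le_sum fun c (_ : c ∈ (univ : Finset (Fin N → Mon N d → k))) => h5 c
  rw [sum_boole] at h6
  refine le_trans ?_ h6
  rw [sum_sub_distrib, sum_add_distrib, sum_sub_distrib, ← mul_sum, ← sum_div, e1, e2, sum_const,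
    card_univ, nsmul_eq_mul, mul_one]
  have h7 : (Fintype.card (Fin N → Mon N d → k) : ℝ) = R := rfl
  rw [h7]
  have h8 : R * (1 / 3 - 1 / Q) = R - 11 / 6 * R + R * (2 - 1 / Q) - 5 * R / 6 := by ring
  rw [h8]
  linarith

open Classical in
/-- **A quarter of the systems is good.** -/
theorem good_count (hd : 2 ≤ d) (hN : 1 ≤ N)
    (hq : 12 * (1 + Fintype.card (Top N d)) ≤ Fintype.card k) :
    ((univ.filter fun c : Fin N → Mon N d → k => ¬ GoodSys c).card : ℝ) ≤ 3 / 4 * RR N d k := by
  have h1 := zero_free (N := N) (d := d) (k := k) hd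
  have h2 := det_count (N := N) (d := d) (k := k)
  set R := RR N d k with hR
  set q : ℝ := (Fintype.card k : ℝ) with hqq
  have hq0 : 0 < q := by
    rw [hqq]
    exact Nat.cast_pos.2 Fintype.card_pos
  have hq1 : 1 ≤ q := by
    rw [hqq]
    exact_mod_cast Fintype.card_pos (α := k)
  have hR0 : 0 ≤ R := Nat.cast_nonneg _
  have h3 : ((univ.filter fun c : Fin N → Mon N d → k => (mat c).det = 0).card : ℝ) ≤
      Fintype.card (Top N d) * R / q := by
    rw [le_div_iff₀ hq0]
    have : ((univ.filter fun c : Fin N → Mon N d → k => (mat c).det = 0).card : ℝ) *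
      (Fintype.card k : ℝ) ≤
      Fintype.card (Top N d) * (Fintype.card (Fin N → Mon N d → k) : ℝ) := by
      exact_mod_cast h2
    exact this
  have h4 : ((univ.filter fun c : Fin N → Mon N d → k => ¬ ∀ x, ¬ Zer c x).card : ℝ) ≤
      R - R * (1 / 3 - 1 / q ^ N) := by
    have h5 : (univ.filter fun c : Fin N → Mon N d → k => ∀ x, ¬ Zer c x).card +
        (univ.filter fun c : Fin N → Mon N d → k => ¬ ∀ x, ¬ Zer c x).card =
        Fintype.card (Fin N → Mon N d → k) := card_filter_add_card_filter_not _
    have h6 : ((univ.filter fun c : Fin N → Mon N d → k => ∀ x, ¬ Zer c x).card : ℝ) +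
        ((univ.filter fun c : Fin N → Mon N d → k => ¬ ∀ x, ¬ Zer c x).card : ℝ) =
        (Fintype.card (Fin N → Mon N d → k) : ℝ) := by
      exact_mod_cast h5
    have h7 : (Fintype.card (Fin N → Mon N d → k) : ℝ) = R := rfl
    linarith
  have h5 : (univ.filter fun c : Fin N → Mon N d → k => ¬ GoodSys c) ⊆
      (univ.filter fun c : Fin N → Mon N d → k => (mat c).det = 0) ∪
        (univ.filter fun c : Fin N → Mon N d → k => ¬ ∀ x, ¬ Zer c x) := by
    intro c hc
    rw [mem_filter] at hc
    rw [mem_union, mem_filter, mem_filter]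
    by_contra h
    push Not at h
    apply hc.2
    refine ⟨h.1 (mem_univ _), fun x => ?_⟩
    have h6 := h.2 (mem_univ _) x
    unfold Zer at h6
    push Not at h6
    exact h6
  have h6 : ((univ.filter fun c : Fin N → Mon N d → k => ¬ GoodSys c).card : ℝ) ≤
      ((univ.filter fun c : Fin N → Mon N d → k => (mat c).det = 0).card : ℝ) +
        ((univ.filter fun c : Fin N → Mon N d → k => ¬ ∀ x, ¬ Zer c x).card : ℝ) := by
    exact_mod_cast (card_le_card h5).trans (card_union_le _ _)
  have h7 : 1 / q ^ N ≤ 1 / q := by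
    refine one_div_le_one_div_of_le hq0 ?_
    calc q = q ^ 1 := (pow_one q).symm
      _ ≤ q ^ N := pow_le_pow_right₀ hq1 hN
  have h8 : (12 * (1 + Fintype.card (Top N d) : ℝ)) ≤ q := by
    rw [hqq]
    exact_mod_cast hq
  have h9 : Fintype.card (Top N d) * R / q + R * (1 / q) ≤ R / 12 := by
    have e : Fintype.card (Top N d) * R / q + R * (1 / q) = R * ((1 + Fintype.card (Top N d)) / q) := by
      ring
    rw [e]
    have e2 : (1 + Fintype.card (Top N d) : ℝ) / q ≤ 1 / 12 := by
      rw [div_le_div_iff₀ hq0 (by norm_num)]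
      linarith
    calc R * ((1 + Fintype.card (Top N d)) / q) ≤ R * (1 / 12) := mul_le_mul_of_nonneg_left e2 hR0
      _ = _ := by ring
  have h10 : R * (1 / q ^ N) ≤ R * (1 / q) := mul_le_mul_of_nonneg_left h7 hR0
  have h11 : R - R * (1 / 3 - 1 / q ^ N) = 2 / 3 * R + R * (1 / q ^ N) := by ring
  rw [h11] at h4
  linarith

end Pool.Agent.D0H55.LN
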